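import Pool.Agent.H37.GH.Av
import Pool.Agent.H48.CV.HsD

/-!
# Module MdN: the moments of the slices; the slices in `L¹`

* `md_nh`: `md (F x) μ ≤ mdT F μ + κ C`: `|∫ F x v φ(v) dv - ∫ F q.2 q.1 φ(q.1) dν| ≤ ∫ |F x v - av F v| |φ v| dv ≤ κ ∫ Wp (d+10) v |φ v| dv` for `φ = 1, v_i, nsq` (`av_mass`, `av_nh`; `|v_i| ≤ 1 + nsq v`, `Wp (d+10) (1+nsq) = Wp (d+9)` integrable).
* `mdT_t`: `mdT (f t) μ = mdT (f 0) μ`: conservation (`mass_const`, `energy_const` of H15/AV/Ent, the momentum as in `hs_drop` (H48/CV/HsD, private `hsD_mom`) or `eqm_t` (H37/LT/MdL)).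
* `l1_x`: `∫ |F x v - μ v| dv ≤ ∫ |F q.2 q.1 - μ q.1| dν + κ C`: `|F x v - μ v| ≤ |F x v - av F v| + |av F v - μ v|`, `|av F v - μ v| ≤ ∫ |F y v - μ v| dμ(y)`, Fubini (`nu_integral`).
-/

set_option autoImplicit false

open MeasureTheory Set Filter Topology Pool.Agent.H25.Kin Pool.Agent.H48.PL Pool.Agent.H48.PR
open Pool.Agent.H15.AV (Slice nu_integral)
open Pool.Agent.H48.NE (mx)
open Pool.Agent.H82.CM (HypL)
open Pool.Agent.H37.LT (md)

namespace Pool.Agent.H37.GH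

variable {d : ℕ} {s γ C Ca cb : ℝ} {b : ℝ → ℝ}

private lemma MdN_W (p : ℕ) (v : Vec d) : Wp (p + 2) v * (1 + nsq v) ^ 2 = Wp p v := by
  have h := sq_nonneg' v
  have h1 : (1 + nsq v) ≠ 0 := by positivity
  unfold Wp
  rw [pow_add, mul_inv, mul_assoc, inv_mul_cancel₀ (pow_ne_zero _ h1), mul_one]

private lemma MdN_wt {q : ℕ} (hq : d + 1 ≤ 2 * q) (z : Vec d) : Wp q z ≤ 2 ^ q * wt d z := by
  have h := sq_nonneg' z
  have h1 := one_le_w z
  have h2 : (1 + ‖z‖) ^ (d + 1) ≤ 2 ^ q * (1 + nsq z) ^ q := by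
    calc (1 + ‖z‖) ^ (d + 1) ≤ (1 + ‖z‖) ^ (2 * q) := pow_le_pow_right₀ h1 hq
      _ = ((1 + ‖z‖) ^ 2) ^ q := pow_mul _ _ _
      _ ≤ (2 * (1 + nsq z)) ^ q := pow_le_pow_left₀ (by positivity) (Pool.Agent.H82.BK.norm_le_nsq z) q
      _ = 2 ^ q * (1 + nsq z) ^ q := mul_pow _ _ _
  unfold Wp wt
  have h3 : 0 < (1 + nsq z) ^ q := by positivity
  have h4 : 0 < (1 + ‖z‖) ^ (d + 1) := by positivity
  rw [← div_eq_mul_inv, inv_eq_one_div, div_le_div_iff₀ h3 h4, one_mul]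
  exact h2

/-- weight times a function of growth at most two -/
private lemma MdN_le {φ : Vec d → ℝ} (hb : ∀ v, |φ v| ≤ 1 + nsq v) (v : Vec d) :
    Wp (d + 10) v * |φ v| ≤ 2 ^ (d + 8) * wt d v := by
  have h := sq_nonneg' v
  have h1 : |φ v| ≤ (1 + nsq v) ^ 2 := (hb v).trans (by nlinarith)
  calc Wp (d + 10) v * |φ v| ≤ Wp (d + 8 + 2) v * (1 + nsq v) ^ 2 :=
        mul_le_mul_of_nonneg_left h1 (Wp_pos _ _).le
    _ = Wp (d + 8) v := MdN_W (d + 8) v
    _ ≤ 2 ^ (d + 8) * wt d v := MdN_wt (by omega) v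

private lemma MdN_int {φ : Vec d → ℝ} (hφ : Continuous φ) (hb : ∀ v, |φ v| ≤ 1 + nsq v) :
    Integrable fun v : Vec d => Wp (d + 10) v * |φ v| := by
  refine (integrable_wt.const_mul (2 ^ (d + 8))).mono'
    ((Wp_cont (d + 10)).mul hφ.abs).aestronglyMeasurable (Eventually.of_forall fun v => ?_)
  rw [Real.norm_eq_abs, abs_of_nonneg (mul_nonneg (Wp_pos _ _).le (abs_nonneg _))]
  exact MdN_le hb v

private lemma MdN_nsq (v : Vec d) : 1 + nsq v ≤ ((d : ℝ) + 1) * (1 + ‖v‖) ^ 2 := by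
  have h1 := sq_le v
  have h2 := norm_nonneg v
  have hd : (0 : ℝ) ≤ d := Nat.cast_nonneg d
  have h3 : ‖v‖ ^ 2 ≤ (1 + ‖v‖) ^ 2 := pow_le_pow_left₀ h2 (by linarith) 2
  have h4 : (1 : ℝ) ≤ (1 + ‖v‖) ^ 2 := one_le_pow₀ (by linarith)
  have h5 := mul_le_mul_of_nonneg_left h3 hd
  linarith

private lemma MdN_cx {F : Vec d → Vec d → ℝ} (hF : Slice F) (x : Vec d) : Continuous (F x) :=
  hF.cont.comp (by fun_prop : Continuous fun v : Vec d => (x, v))

private lemma MdN_intF {F : Vec d → Vec d → ℝ} (hF : Slice F) {φ : Vec d → ℝ} (hφ : Continuous φ)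
    (hb : ∀ v, |φ v| ≤ 1 + nsq v) (x : Vec d) : Integrable fun v => F x v * φ v := by
  obtain ⟨A, hA⟩ := hF.decay (d + 3)
  refine (integrable_wt.const_mul (A * ((d : ℝ) + 1))).mono'
    ((MdN_cx hF x).mul hφ).aestronglyMeasurable (Eventually.of_forall fun v => ?_)
  have hw := w_pos v
  have h0 := hF.nonneg x v
  rw [Real.norm_eq_abs, abs_mul, abs_of_nonneg h0]
  unfold wt
  rw [← div_eq_mul_inv, le_div_iff₀ (pow_pos hw _)]
  have h1 := (hb v).trans (MdN_nsq v)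
  have hd : (0 : ℝ) ≤ (d : ℝ) + 1 := by positivity
  calc F x v * |φ v| * (1 + ‖v‖) ^ (d + 1)
      ≤ F x v * (((d : ℝ) + 1) * (1 + ‖v‖) ^ 2) * (1 + ‖v‖) ^ (d + 1) :=
        mul_le_mul_of_nonneg_right (mul_le_mul_of_nonneg_left h1 h0) (by positivity)
    _ = ((1 + ‖v‖) ^ (d + 3) * F x v) * ((d : ℝ) + 1) := by ring
    _ ≤ A * ((d : ℝ) + 1) := mul_le_mul_of_nonneg_right (hA x v) hd

/-- the difference of a moment of a slice and the mean moment -/
private lemma MdN_key {κ : ℝ} {F : Vec d → Vec d → ℝ} (hF : Slice F)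
    (h : NH κ F) {φ : Vec d → ℝ} (hφ : Continuous φ) (hb : ∀ v, |φ v| ≤ 1 + nsq v) (x : Vec d) :
    |(∫ v, F x v * φ v) - ∫ q, F q.2 q.1 * φ q.1 ∂(nu d)| ≤ κ * ∫ v, Wp (d + 10) v * |φ v| := by
  have hpt : ∀ v, ‖(F x v - av F v) * φ v‖ ≤ κ * (Wp (d + 10) v * |φ v|) := by
    intro v
    rw [Real.norm_eq_abs, abs_mul, ← mul_assoc]
    exact mul_le_mul_of_nonneg_right (av_nh hF h x v) (abs_nonneg _)
  have i0 := (MdN_int hφ hb).const_mul κ
  have i1 : Integrable fun v => (F x v - av F v) * φ v :=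
    i0.mono' (((MdN_cx hF x).sub (av_cont hF)).mul hφ).aestronglyMeasurable
      (Eventually.of_forall hpt)
  have i2 := MdN_intF hF hφ hb x
  have i3 : Integrable fun v => av F v * φ v := by
    refine (i2.sub i1).congr (Eventually.of_forall fun v => ?_)
    simp only [Pi.sub_apply]
    ring
  have e : (∫ v, F x v * φ v) - ∫ v, av F v * φ v = ∫ v, (F x v - av F v) * φ v := by
    rw [← integral_sub i2 i3]
    refine integral_congr_ae (Eventually.of_forall fun v => ?_)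
    simp only
    ring
  rw [← av_mass hF hφ ⟨(d : ℝ) + 1, 2, fun v => (hb v).trans (MdN_nsq v)⟩, e, ← Real.norm_eq_abs,
    ← integral_const_mul]
  exact norm_integral_le_of_norm_le i0 (Eventually.of_forall hpt)

private lemma MdN_b1 (v : Vec d) : |(fun _ : Vec d => (1 : ℝ)) v| ≤ 1 + nsq v := by
  have h := sq_nonneg' v
  simp only [abs_one]
  linarith

private lemma MdN_b2 (i : Fin d) (v : Vec d) : |(fun v : Vec d => v i) v| ≤ 1 + nsq v := by
  have h1 : v i ^ 2 ≤ nsq v := by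
    unfold nsq
    exact Finset.single_le_sum (f := fun j => v j ^ 2) (fun j _ => sq_nonneg _) (Finset.mem_univ i)
  simp only
  have h2 : v i ^ 2 = |v i| ^ 2 := (sq_abs _).symm
  nlinarith [sq_nonneg (|v i| - 1), abs_nonneg (v i)]

private lemma MdN_b3 (v : Vec d) : |nsq v| ≤ 1 + nsq v := by
  have h := sq_nonneg' v
  rw [abs_of_nonneg h]
  linarith

private lemma MdN_nn (φ : Vec d → ℝ) : 0 ≤ ∫ v, Wp (d + 10) v * |φ v| :=
  integral_nonneg fun v => mul_nonneg (Wp_pos _ _).le (abs_nonneg _)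

private lemma MdN_tri {A B c E : ℝ} (h : |A - B| ≤ E) : |A - c| ≤ |B - c| + E := by
  have e : A - c = (A - B) + (B - c) := by ring
  rw [e]
  exact (abs_add_le _ _).trans (by linarith)

theorem md_nh {a k : ℝ} (ha : 0 < a) (hk : 0 < k) (u : Vec d) : ∃ C : ℝ, 0 ≤ C ∧
    ∀ (κ : ℝ) (F : Vec d → Vec d → ℝ), 0 ≤ κ → Slice F → NH κ F →
      ∀ x, md (F x) (mx a k u) ≤ mdT F (mx a k u) + κ * C := by
  refine ⟨(∫ v, Wp (d + 10) v * |(fun _ : Vec d => (1 : ℝ)) v|) +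
    (∑ i : Fin d, ∫ v, Wp (d + 10) v * |(fun v : Vec d => v i) v|) +
    ∫ v : Vec d, Wp (d + 10) v * |nsq v|, ?_, ?_⟩
  · exact add_nonneg (add_nonneg (MdN_nn _) (Finset.sum_nonneg fun i _ => MdN_nn _)) (MdN_nn _)
  · intro κ F _ hF hN x
    have h1 := MdN_key hF hN continuous_const MdN_b1 x
    have h2 := fun i : Fin d => MdN_key hF hN (continuous_apply i) (MdN_b2 i) x
    have h3 := MdN_key hF hN continuous_sq MdN_b3 x
    simp only [mul_one] at h1
    have g1 := MdN_tri (c := ∫ v, mx a k u v) h1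
    have g2 := fun i : Fin d => MdN_tri (c := ∫ v, mx a k u v * v i) (h2 i)
    have g3 := MdN_tri (c := ∫ v, mx a k u v * nsq v) h3
    have g4 := Finset.sum_le_sum fun (i : Fin d) (_ : i ∈ Finset.univ) => g2 i
    rw [Finset.sum_add_distrib, ← Finset.mul_sum] at g4
    unfold md mdT
    rw [mul_add, mul_add]
    linarith

theorem mdT_t (HL : HypL d γ s b C Ca cb) {T : ℝ} {f : ℝ → Vec d → Vec d → ℝ}
    (hf : IsBoltzmannSol γ b T f) {t : ℝ} (ht : t ∈ Ico 0 T) (μ : Vec d → ℝ) :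
    mdT (f t) μ = mdT (f 0) μ := by
  have hI := boltz_HasInvariants HL.H hf
  have key : ∀ p : Vec d → ℝ, PG p → Continuous p →
      (∀ t ∈ Ioo 0 T, ∀ x, ∫ v, boltzQ γ b (f t x) v * p v = 0) →
      ∫ q, f t q.2 q.1 * p q.1 ∂(nu d) = ∫ q, f 0 q.2 q.1 * p q.1 ∂(nu d) := by
    intro p hp hpc hQ
    have h := mom_const hp hpc hf hQ ht
    unfold mom at h
    have e : ∀ r : ℝ, ∫ q, f r q.2 q.1 * p q.1 ∂(nu d) =
        ∫ q, (fun _ : Vec d => (1 : ℝ)) q.2 * p q.1 * f r q.2 q.1 ∂(nu d) := by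
      intro r
      refine integral_congr_ae (Eventually.of_forall fun q => ?_)
      simp only
      ring
    rw [e t, e 0]
    exact h
  have k1 : ∫ q, f t q.2 q.1 ∂(nu d) = ∫ q, f 0 q.2 q.1 ∂(nu d) := by
    have h := key (fun _ => 1) PG.one continuous_const fun t ht x => by
      simpa using (hI t ht x).1
    simpa using h
  have k2 : ∀ i : Fin d, ∫ q, f t q.2 q.1 * q.1 i ∂(nu d) = ∫ q, f 0 q.2 q.1 * q.1 i ∂(nu d) :=
    fun i => key (fun v => v i) (PG.coord i) (continuous_apply i) fun t ht x => (hI t ht x).2.1 i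
  have k3 : ∫ q, f t q.2 q.1 * nsq q.1 ∂(nu d) = ∫ q, f 0 q.2 q.1 * nsq q.1 ∂(nu d) :=
    key nsq PG.nsq continuous_sq fun t ht x => (hI t ht x).2.2
  unfold mdT
  rw [k1, k3]
  simp only [k2]

private lemma MdN_dec {a k : ℝ} (ha : 0 < a) (hk : 0 < k) (u : Vec d) {F : Vec d → Vec d → ℝ}
    (hF : Slice F) : ∃ C : ℝ, ∀ q : Vec d × Vec d, |F q.2 q.1 - mx a k u q.1| ≤ C * wt d q.1 := by
  obtain ⟨C, hC⟩ := hF.decay (d + 1)
  obtain ⟨Cl, hCl⟩ := Pool.Agent.H48.NE.mx_FB ha hk u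
  refine ⟨C + Cl (d + 1), fun q => ?_⟩
  have h1 := hC q.2 q.1
  have h2 := hCl.le (d + 1) q.1
  have hp : 0 < (1 + ‖q.1‖) ^ (d + 1) := pow_pos (w_pos q.1) _
  have h3 : |F q.2 q.1 - mx a k u q.1| ≤ F q.2 q.1 + mx a k u q.1 := by
    have hf := hF.nonneg q.2 q.1
    have hg := hCl.nonneg q.1
    rw [abs_le]
    constructor <;> linarith
  unfold wt
  rw [← div_eq_mul_inv, le_div_iff₀ hp]
  have h4 := mul_le_mul_of_nonneg_right h3 hp.le
  linarith [h1, h2, h4]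

private lemma MdN_real : (muD d).real univ = 1 := by
  unfold Measure.real
  rw [muD_univ]
  simp

theorem l1_x {a k : ℝ} (ha : 0 < a) (hk : 0 < k) (u : Vec d) : ∃ C : ℝ, 0 ≤ C ∧
    ∀ (κ : ℝ) (F : Vec d → Vec d → ℝ), 0 ≤ κ → Slice F → NH κ F →
      ∀ x, ∫ v, |F x v - mx a k u v| ≤ ∫ q, |F q.2 q.1 - mx a k u q.1| ∂(nu d) + κ * C := by
  refine ⟨∫ v, Wp (d + 10) v * |(fun _ : Vec d => (1 : ℝ)) v|, MdN_nn _, ?_⟩
  intro κ F _ hF hN x
  obtain ⟨Cl, hCl⟩ := Pool.Agent.H48.NE.mx_FB (d := d) ha hk u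
  obtain ⟨A, hA⟩ := MdN_dec ha hk u hF
  have hmc : Continuous (mx a k u) := hCl.nice.cont
  have hcG : Continuous fun q : Vec d × Vec d => |F q.2 q.1 - mx a k u q.1| :=
    ((hF.cont.comp (by fun_prop : Continuous fun q : Vec d × Vec d => (q.2, q.1))).sub
      (hmc.comp continuous_fst)).abs
  have hiG : Integrable (fun q : Vec d × Vec d => |F q.2 q.1 - mx a k u q.1|) (nu d) :=
    integrable_nu hcG.aestronglyMeasurable fun q => by rw [abs_abs]; exact hA q
  have hiG2 := hiG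
  unfold nu at hiG2
  have iv : Integrable fun v : Vec d => ∫ y, |F y v - mx a k u v| ∂(muD d) :=
    hiG2.integral_prod_left
  have eG : ∫ q, |F q.2 q.1 - mx a k u q.1| ∂(nu d) =
      ∫ v, ∫ y, |F y v - mx a k u v| ∂(muD d) := by
    unfold nu
    exact integral_prod _ hiG2
  have hx : Integrable fun v : Vec d => |F x v - mx a k u v| := by
    refine (integrable_wt.const_mul A).mono' ((MdN_cx hF x).sub hmc).abs.aestronglyMeasurable
      (Eventually.of_forall fun v => ?_)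
    rw [Real.norm_eq_abs, abs_abs]
    exact hA (v, x)
  have iW := (MdN_int (d := d) (φ := fun _ => 1) continuous_const MdN_b1).const_mul κ
  have hav : ∀ v, |av F v - mx a k u v| ≤ ∫ y, |F y v - mx a k u v| ∂(muD d) := by
    intro v
    have hc : Continuous fun y => F y v :=
      hF.cont.comp (by fun_prop : Continuous fun y : Vec d => (y, v))
    have hi : Integrable (fun y => F y v) (muD d) := by
      unfold muD
      exact hc.continuousOn.integrableOn_compact isCompact_Icc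
    have e : av F v - mx a k u v = ∫ y, (F y v - mx a k u v) ∂(muD d) := by
      rw [integral_sub hi (integrable_const _), integral_const, MdN_real, one_smul]
      rfl
    rw [e]
    exact abs_integral_le_integral_abs
  rw [eG, ← integral_const_mul, ← integral_add iv iW]
  refine integral_mono hx (iv.add iW) fun v => ?_
  have h1 := av_nh hF hN x v
  have h2 := hav v
  have e : F x v - mx a k u v = (F x v - av F v) + (av F v - mx a k u v) := by ring
  simp only [abs_one, mul_one]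
  rw [e]
  exact (abs_add_le _ _).trans (by linarith)

end Pool.Agent.H37.GH
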