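import Pool.Agent.H37.GH.Defs

/-!
# Module Av: the average over the torus

`av F v = ∫ F x v dμ(x)` (`muD d` is a probability measure, `muD_univ`; `nu d = volume.prod (muD d)`, `nu_integral` of H15/AV).
* `av_fs`: nonnegative, does not depend on `x`, continuous (`F` continuous and `|F x v| ≤ C wt d v ≤ C`: `continuous_of_dominated`, or uniform continuity: periodic in `x`), decay `RX` of the constant family: `|av F v| ≤ sup_x |F x v|`.
* `av_gb`: mass and energy of `fun _ => av F` equal those of `F` (Fubini: `∫ av F v φ(v) dv = ∫ F q.2 q.1 φ(q.1) dν`; `∫ ψ(q.1) dν = ∫ ψ`); entropy: Jensen, `r log r` is convex on `[0,∞)` (`Real.convexOn_mul_log`, `ConvexOn.map_integral_le`): `av F v log (av F v) ≤ ∫ F x v log (F x v) dμ(x)`, integrate in `v` (`|F log F| ≤ C wt`, decay).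
* `av_nh`: average of `|F x v - F y v| ≤ κ Wp (d+10) v` over `y`.
-/

set_option autoImplicit false

open MeasureTheory Set Filter Topology Pool.Agent.H25.Kin Pool.Agent.H48.PL Pool.Agent.H48.PR
open Pool.Agent.H15.AV (Slice nu_integral)

namespace Pool.Agent.H37.GH

variable {d : ℕ}

private lemma Av_key (B C : ℝ) (hC0 : 0 ≤ C) (v : Vec d) (y : ℝ) (hy : 0 ≤ y) (hB : y ≤ B)
    (hC : (1 + ‖v‖) ^ (2 * (d + 1)) * y ≤ C) :
    |y * Real.log y| ≤ (2 * Real.sqrt C + C * Real.log (max B 1)) * wt d v := by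
  have hB' : y ≤ max B 1 := hB.trans (le_max_left _ _)
  have hL0 : 0 ≤ Real.log (max B 1) := Real.log_nonneg (le_max_right _ _)
  have hw := w_pos v
  have hs : Real.sqrt y ≤ Real.sqrt C * wt d v := by
    have h1 : y ≤ (Real.sqrt C * wt d v) ^ 2 := by
      rw [mul_pow, Real.sq_sqrt hC0]
      unfold wt
      rw [inv_pow, ← div_eq_mul_inv, le_div_iff₀ (by positivity)]
      calc y * ((1 + ‖v‖) ^ (d + 1)) ^ 2 = (1 + ‖v‖) ^ (2 * (d + 1)) * y := by
            rw [← pow_mul]; ring
        _ ≤ C := hC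
    calc Real.sqrt y ≤ Real.sqrt ((Real.sqrt C * wt d v) ^ 2) := Real.sqrt_le_sqrt h1
      _ = Real.sqrt C * wt d v :=
        Real.sqrt_sq (mul_nonneg (Real.sqrt_nonneg _) (wt_nonneg _))
  have hyw : y ≤ C * wt d v := by
    unfold wt
    rw [← div_eq_mul_inv, le_div_iff₀ (by positivity)]
    have h2 : (1 + ‖v‖) ^ (d + 1) ≤ (1 + ‖v‖) ^ (2 * (d + 1)) :=
      pow_le_pow_right₀ (by have := norm_nonneg v; linarith) (by omega)
    calc y * (1 + ‖v‖) ^ (d + 1) ≤ y * (1 + ‖v‖) ^ (2 * (d + 1)) :=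
          mul_le_mul_of_nonneg_left h2 hy
      _ ≤ C := by rw [mul_comm]; exact hC
  rcases hy.eq_or_lt with h0 | h0
  · rw [← h0, zero_mul, abs_zero]
    have := wt_nonneg (d := d) v
    positivity
  · rcases le_total y 1 with h1 | h1
    · have h2 : Real.log y ≤ 0 := Real.log_nonpos hy h1
      rw [abs_of_nonpos (mul_nonpos_of_nonneg_of_nonpos hy h2)]
      have h3 : -Real.log y ≤ 2 / Real.sqrt y := by
        have hsy : 0 < Real.sqrt y := Real.sqrt_pos.2 h0
        have h4 : Real.log (Real.sqrt y)⁻¹ ≤ (Real.sqrt y)⁻¹ - 1 :=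
          Real.log_le_sub_one_of_pos (by positivity)
        rw [Real.log_inv, Real.log_sqrt hy] at h4
        have h6 : 2 / Real.sqrt y = 2 * (Real.sqrt y)⁻¹ := by ring
        rw [h6]
        linarith
      have h7 : -(y * Real.log y) ≤ 2 * Real.sqrt y := by
        calc -(y * Real.log y) = y * (-Real.log y) := by ring
          _ ≤ y * (2 / Real.sqrt y) := mul_le_mul_of_nonneg_left h3 hy
          _ = 2 * (y / Real.sqrt y) := by ring
          _ = 2 * Real.sqrt y := by rw [Real.div_sqrt]
      have := wt_nonneg (d := d) v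
      have h8 : 0 ≤ C * Real.log (max B 1) * wt d v := by positivity
      calc -(y * Real.log y) ≤ 2 * Real.sqrt y := h7
        _ ≤ 2 * (Real.sqrt C * wt d v) := by linarith
        _ ≤ _ := by linarith
    · have h2 : 0 ≤ Real.log y := Real.log_nonneg h1
      rw [abs_of_nonneg (mul_nonneg hy h2)]
      have h3 : Real.log y ≤ Real.log (max B 1) := Real.log_le_log h0 hB'
      have := wt_nonneg (d := d) v
      calc y * Real.log y ≤ (C * wt d v) * Real.log (max B 1) :=
            mul_le_mul hyw h3 h2 (by positivity)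
        _ ≤ _ := by
            have h9 : 0 ≤ 2 * Real.sqrt C * wt d v := by positivity
            linarith

private instance Av_prob : IsProbabilityMeasure (muD d) := ⟨Pool.Agent.H48.PL.muD_univ⟩

private lemma Av_sec {F : Vec d → Vec d → ℝ} (hF : Slice F) (v : Vec d) :
    Continuous fun x => F x v :=
  hF.cont.comp (continuous_id.prodMk continuous_const)

private lemma Av_bd {F : Vec d → Vec d → ℝ} (hF : Slice F) :
    ∃ C, ∀ x v, F x v ≤ C := by
  obtain ⟨C, hC⟩ := hF.decay 0
  refine ⟨C, fun x v => ?_⟩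
  have := hC x v
  rwa [pow_zero, one_mul] at this

private lemma Av_int {F : Vec d → Vec d → ℝ} (hF : Slice F) (v : Vec d) :
    Integrable (fun x => F x v) (muD d) := by
  obtain ⟨C, hC⟩ := Av_bd hF
  refine Integrable.of_bound (Av_sec hF v).aestronglyMeasurable C (Eventually.of_forall fun x => ?_)
  rw [Real.norm_eq_abs, abs_of_nonneg (hF.nonneg x v)]
  exact hC x v

private lemma Av_dec {F : Vec d → Vec d → ℝ} (hF : Slice F) {N : ℕ} {C : ℝ}
    (hC : ∀ x v, (1 + ‖v‖) ^ N * F x v ≤ C) (v : Vec d) : (1 + ‖v‖) ^ N * av F v ≤ C := by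
  unfold av
  rw [← integral_const_mul]
  calc ∫ x, (1 + ‖v‖) ^ N * F x v ∂(muD d) ≤ ∫ _, C ∂(muD d) :=
        integral_mono ((Av_int hF v).const_mul _) (integrable_const C) fun x => hC x v
    _ = C := by simp

private lemma Av_meas {F : Vec d → Vec d → ℝ} (hF : Slice F) :
    Measurable fun q : Vec d × Vec d => F q.2 q.1 :=
  (hF.cont.comp (continuous_snd.prodMk continuous_fst)).measurable

private lemma Av_fst {ψ : Vec d → ℝ} : ∫ q, ψ q.1 ∂(nu d) = ∫ v, ψ v := by
  unfold nu
  rw [integral_fun_fst]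
  simp [Measure.real, Pool.Agent.H48.PL.muD_univ]

theorem av_nn {F : Vec d → Vec d → ℝ} (hF : Slice F) (v : Vec d) : 0 ≤ av F v := by
  exact integral_nonneg fun x => hF.nonneg x v

theorem av_cont {F : Vec d → Vec d → ℝ} (hF : Slice F) : Continuous (av F) := by
  obtain ⟨C, hC⟩ := Av_bd hF
  unfold av
  refine continuous_of_dominated (bound := fun _ => C) ?_ ?_ (integrable_const C) ?_
  · intro v
    exact (Av_sec hF v).aestronglyMeasurable
  · intro v
    refine Eventually.of_forall fun x => ?_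
    rw [Real.norm_eq_abs, abs_of_nonneg (hF.nonneg x v)]
    exact hC x v
  · refine Eventually.of_forall fun x => ?_
    exact hF.cont.comp (continuous_const.prodMk continuous_id)

theorem av_fs (e : Fin d) {F : Vec d → Vec d → ℝ} (hF : Slice F) :
    FS e (fun _ => av F) (fun _ => av F) := by
  have hR : RX (fun _ : Vec d => av F) := by
    intro N
    obtain ⟨C, hC⟩ := hF.decay N
    refine ⟨C, fun _ v => ?_⟩
    rw [abs_of_nonneg (av_nn hF v)]
    exact Av_dec hF hC v
  have hc : Continuous fun p : Vec d × Vec d => av F p.2 := (av_cont hF).comp continuous_snd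
  exact ⟨fun _ v => av_nn hF v, fun _ _ _ => rfl, fun _ _ _ => rfl, fun _ _ _ _ => rfl,
    fun _ _ _ _ => rfl, hc, hc, hR, hR⟩

theorem av_mass {F : Vec d → Vec d → ℝ} (hF : Slice F) {φ : Vec d → ℝ} (hφ : Continuous φ)
    (hb : ∃ (A : ℝ) (N : ℕ), ∀ v, |φ v| ≤ A * (1 + ‖v‖) ^ N) :
    ∫ v, av F v * φ v = ∫ q, F q.2 q.1 * φ q.1 ∂(nu d) := by
  obtain ⟨A, N, hA⟩ := hb
  have hA0 : 0 ≤ A := by
    have h1 := (abs_nonneg _).trans (hA 0)
    rw [norm_zero, add_zero, one_pow, mul_one] at h1
    exact h1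
  obtain ⟨C, hC⟩ := hF.decay (N + (d + 1))
  have hi : Integrable (fun q : Vec d × Vec d => F q.2 q.1 * φ q.1) (nu d) := by
    refine integrable_nu (C := A * C)
      ((Av_meas hF).mul (hφ.measurable.comp measurable_fst)).aestronglyMeasurable fun q => ?_
    rw [abs_mul, abs_of_nonneg (hF.nonneg _ _)]
    have hw := w_pos q.1
    have h3 : (1 + ‖q.1‖) ^ N * F q.2 q.1 ≤ C * wt d q.1 := by
      unfold wt
      rw [← div_eq_mul_inv, le_div_iff₀ (pow_pos hw _)]
      calc (1 + ‖q.1‖) ^ N * F q.2 q.1 * (1 + ‖q.1‖) ^ (d + 1) =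
          (1 + ‖q.1‖) ^ (N + (d + 1)) * F q.2 q.1 := by rw [pow_add]; ring
        _ ≤ C := hC q.2 q.1
    calc F q.2 q.1 * |φ q.1| ≤ F q.2 q.1 * (A * (1 + ‖q.1‖) ^ N) :=
          mul_le_mul_of_nonneg_left (hA q.1) (hF.nonneg _ _)
      _ = A * ((1 + ‖q.1‖) ^ N * F q.2 q.1) := by ring
      _ ≤ A * (C * wt d q.1) := mul_le_mul_of_nonneg_left h3 hA0
      _ = _ := by ring
  unfold nu at hi ⊢
  rw [integral_prod _ hi]
  refine integral_congr_ae (Eventually.of_forall fun v => ?_)
  unfold av
  simp only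
  rw [integral_mul_const]

theorem av_gb {F : Vec d → Vec d → ℝ} (hF : Slice F) {M : ℝ} (hG : GB M F) :
    GB M (fun _ : Vec d => av F) := by
  have hone := av_mass hF (φ := fun _ => 1) continuous_const ⟨1, 0, fun v => by simp⟩
  have hsq := av_mass hF (φ := nsq) continuous_sq ⟨d, 2, fun v => by
    rw [abs_of_nonneg (sq_nonneg' v)]
    refine (sq_le v).trans (mul_le_mul_of_nonneg_left ?_ (Nat.cast_nonneg _))
    exact pow_le_pow_left₀ (norm_nonneg _) (by linarith) 2⟩
  simp only [mul_one] at hone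
  obtain ⟨B, hB⟩ := Av_bd hF
  obtain ⟨C, hC⟩ := hF.decay (2 * (d + 1))
  have hC0 : 0 ≤ C := (mul_nonneg (by positivity) (hF.nonneg 0 0)).trans (hC 0 0)
  refine ⟨?_, ?_, ?_⟩
  · refine le_of_eq_of_le ?_ hG.mass
    rw [← hone]
    exact Av_fst (ψ := av F)
  · refine le_of_eq_of_le ?_ hG.energy
    rw [← hsq]
    exact Av_fst (ψ := fun v => av F v * nsq v)
  · refine le_trans ?_ hG.entropy
    have hi : Integrable (fun q : Vec d × Vec d => F q.2 q.1 * Real.log (F q.2 q.1)) (nu d) :=
      integrable_nu ((Av_meas hF).mul (Real.measurable_log.comp (Av_meas hF))).aestronglyMeasurable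
        fun q => Av_key B C hC0 q.1 _ (hF.nonneg _ _) (hB _ _) (hC _ _)
    have hia : Integrable fun v : Vec d => av F v * Real.log (av F v) := by
      refine (integrable_wt.const_mul (2 * Real.sqrt C + C * Real.log (max B 1))).mono'
        ((av_cont hF).measurable.mul
          (Real.measurable_log.comp (av_cont hF).measurable)).aestronglyMeasurable
        (Eventually.of_forall fun v => ?_)
      rw [Real.norm_eq_abs]
      refine Av_key B C hC0 v _ (av_nn hF v) ?_ (Av_dec hF hC v)
      have h := Av_dec hF (N := 0) (C := B) (fun x v => by rw [pow_zero, one_mul]; exact hB x v) v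
      rwa [pow_zero, one_mul] at h
    refine (le_of_eq (Av_fst (ψ := fun v => av F v * Real.log (av F v)))).trans ?_
    have hi2 := hi
    unfold nu at hi2 ⊢
    rw [integral_prod _ hi2]
    refine integral_mono hia hi2.integral_prod_left fun v => ?_
    have hfi := Av_int hF v
    have hgi : Integrable ((fun r => r * Real.log r) ∘ fun x => F x v) (muD d) := by
      refine Integrable.of_bound
        ((Real.continuous_mul_log.comp (Av_sec hF v)).aestronglyMeasurable)
        ((2 * Real.sqrt C + C * Real.log (max B 1)) * wt d v) (Eventually.of_forall fun x => ?_)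
      rw [Real.norm_eq_abs]
      exact Av_key B C hC0 v _ (hF.nonneg _ _) (hB _ _) (hC _ _)
    exact Real.convexOn_mul_log.map_integral_le Real.continuous_mul_log.continuousOn isClosed_Ici
      (Eventually.of_forall fun x => hF.nonneg x v) hfi hgi

theorem av_nh {F : Vec d → Vec d → ℝ} (hF : Slice F) {κ : ℝ} (h : NH κ F) (x v : Vec d) :
    |F x v - av F v| ≤ κ * Wp (d + 10) v := by
  have h1 : F x v - av F v = ∫ y, (F x v - F y v) ∂(muD d) := by
    rw [integral_sub (integrable_const _) (Av_int hF v)]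
    simp [av]
  rw [h1]
  calc |∫ y, (F x v - F y v) ∂(muD d)| ≤ ∫ y, |F x v - F y v| ∂(muD d) :=
        abs_integral_le_integral_abs
    _ ≤ ∫ _, κ * Wp (d + 10) v ∂(muD d) :=
        integral_mono ((integrable_const _).sub (Av_int hF v)).abs (integrable_const _)
          fun y => h x y v
    _ = κ * Wp (d + 10) v := by simp

end Pool.Agent.H37.GH
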