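import Pool.Agent.H37.GH.Defs
import Pool.Agent.H48.PR.UCon

/-!
# Module Boot: continuity in time of the oscillation; bootstrap

* `osc_ext`: `T' < T`, `NH κ (f t)` for all `t ∈ [0,T']` (in particular at `T'`), `κ < κ'`: there is `r > 0` with `NH κ' (f t)` for `t ∈ [0, T'+r]`. `f t x v → f T' x v` as `t → T'`, uniformly in `x, v` with the weight `Wp (d+10)`: for `‖v‖ > R` decay of order `2(d+10)+1` on `[0,T'']`, `T' < T'' < T` (`hf.decay`); for `‖v‖ ≤ R`, `x` in the unit cube: uniform continuity of `unc f` on a compact set (as in `ucon`, H48/PR/UCon.lean), periodicity in `x` for all `x`.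
* `osc_boot`: let `T* ` be the supremum of the `t ≤ T₀` for which `NH κ` holds on `[0,t]`. If the conclusion fails there is a first time; hypothesis `h`: for every `T' ≤ min T T₀`, if `NH κ` holds on `[0,T')` then `NH (κ/2)` holds on `[0,T')`. Then `NH κ` on `[0, min T T₀)`: the set `S = {t ∈ [0, T₁) : NH κ on [0,t]}`, `T₁ = min T T₀`, contains `0` (`NH (κ/2) (f 0)` by hypothesis `hz`), is closed under increasing limits (for `t* = sup S`: `NH κ` on `[0,t*)`, hence `NH (κ/2)` on `[0,t*)`, and `NH (κ/2) (f t*)` by continuity) and open to the right (`osc_ext` with `κ/2 < κ`).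
-/

set_option autoImplicit false

open MeasureTheory Set Filter Topology Pool.Agent.H25.Kin Pool.Agent.H48.PL Pool.Agent.H48.PR

namespace Pool.Agent.H37.GH

variable {d : ℕ} {T : ℝ} {Q f : ℝ → Vec d → Vec d → ℝ}

/-- reduction of the position to the unit cube -/
private lemma Boot_per {F : Vec d → ℝ} (hF : Per F) (x : Vec d) :
    ∃ y ∈ Icc (0 : Vec d) 1, F y = F x := by
  refine ⟨fun i => Int.fract (x i), ⟨fun i => Int.fract_nonneg _, fun i => (Int.fract_lt_one _).le⟩, ?_⟩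
  have hl : (fun i => (-(⌊x i⌋ : ℤ) : ℝ)) ∈
      Submodule.span ℤ (Set.range (Pi.basisFun ℝ (Fin d))) := by
    have e : (fun i => (-(⌊x i⌋ : ℤ) : ℝ)) = ∑ i, (-⌊x i⌋ : ℤ) • (Pi.basisFun ℝ (Fin d) i) := by
      funext j
      rw [Finset.sum_apply]
      simp only [Pi.basisFun_apply, Pi.smul_apply, Pi.single_apply]
      rw [Finset.sum_eq_single j]
      · simp
      · intro b _ hb
        simp [Ne.symm hb]
      · intro h
        exact absurd (Finset.mem_univ _) h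
    rw [e]
    exact Submodule.sum_mem _ fun i _ => Submodule.smul_mem _ _
      (Submodule.subset_span (Set.mem_range_self i))
  have h := hF.span hl x
  have e2 : (fun i => (-(⌊x i⌋ : ℤ) : ℝ)) + x = fun i => Int.fract (x i) := by
    funext i
    simp only [Pi.add_apply, Int.fract]
    ring
  rw [e2] at h
  exact h

private lemma Boot_wp (p : ℕ) (v : Vec d) :
    ((1 + ‖v‖) ^ (2 * p))⁻¹ ≤ (1 + d : ℝ) ^ p * Wp p v := by
  have hv := norm_nonneg v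
  have hn := sq_nonneg' v
  have h1 := sq_le v
  have h2 : 1 + nsq v ≤ (1 + d : ℝ) * (1 + ‖v‖) ^ 2 := by
    have hd : (0 : ℝ) ≤ d := Nat.cast_nonneg d
    nlinarith [mul_nonneg hd hv]
  have h3 : (1 + nsq v) ^ p ≤ (1 + d : ℝ) ^ p * (1 + ‖v‖) ^ (2 * p) := by
    rw [pow_mul, ← mul_pow]
    exact pow_le_pow_left₀ (by linarith) h2 p
  unfold Wp
  have h4 : 0 < (1 + ‖v‖) ^ (2 * p) := by positivity
  have h5 : 0 < (1 + nsq v) ^ p := by positivity
  rw [← div_eq_mul_inv, le_div_iff₀ h5, inv_mul_le_iff₀ h4, mul_comm ((1 + ‖v‖) ^ (2 * p))]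
  exact h3

/-- continuity in time, uniformly in `x`, `v` with the weight -/
private lemma Boot_cont (hf : IsClassicalSol T Q f) {T' : ℝ} (h0 : 0 ≤ T') (hT : T' < T) {ε : ℝ}
    (hε : 0 < ε) : ∃ r > 0, T' + r < T ∧ ∀ t, 0 ≤ t → |t - T'| ≤ r → ∀ x v : Vec d,
      |f t x v - f T' x v| ≤ ε * Wp (d + 10) v := by
  obtain ⟨T₁, hT₁⟩ : ∃ T₁ : ℝ, T₁ = (T' + T) / 2 := ⟨_, rfl⟩
  have h1 : T₁ < T := by linarith
  have h2 : T' < T₁ := by linarith
  obtain ⟨C, hC⟩ := hf.decay T₁ h1 (2 * (d + 10) + 1)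
  obtain ⟨C', hC'⟩ : ∃ C' : ℝ, C' = max C 0 := ⟨_, rfl⟩
  have hC0 : 0 ≤ C' := by rw [hC']; exact le_max_right _ _
  have hCC : C ≤ C' := by rw [hC']; exact le_max_left _ _
  obtain ⟨M, hM⟩ : ∃ M : ℝ, M = C' * (1 + d : ℝ) ^ (d + 10) := ⟨_, rfl⟩
  have hM0 : 0 ≤ M := by rw [hM]; positivity
  obtain ⟨R, hR⟩ : ∃ R : ℝ, R = M / ε := ⟨_, rfl⟩
  have hR0 : 0 ≤ R := by rw [hR]; positivity
  have hRM : M = ε * R := by rw [hR]; field_simp
  obtain ⟨δ, hδ⟩ : ∃ δ : ℝ, δ = ε * ((1 + d * R ^ 2) ^ (d + 10))⁻¹ := ⟨_, rfl⟩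
  have hδ0 : 0 < δ := by rw [hδ]; positivity
  have hKc : IsCompact (Icc (0 : ℝ) T₁ ×ˢ (Metric.closedBall (0 : Vec d) 1 ×ˢ
      Metric.closedBall (0 : Vec d) R)) :=
    isCompact_Icc.prod ((isCompact_closedBall _ _).prod (isCompact_closedBall _ _))
  have hcont : ContinuousOn (unc f) (Icc (0 : ℝ) T₁ ×ˢ (Metric.closedBall (0 : Vec d) 1 ×ˢ
      Metric.closedBall (0 : Vec d) R)) :=
    (show ContinuousOn (unc f) (Ico 0 T ×ˢ univ) from hf.isCont).mono fun q hq =>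
      ⟨⟨hq.1.1, hq.1.2.trans_lt h1⟩, mem_univ _⟩
  obtain ⟨ρ, hρ0, hρ⟩ := Metric.uniformContinuousOn_iff.1
    (hKc.uniformContinuousOn_of_continuous hcont) δ hδ0
  refine ⟨min ((T - T') / 4) (ρ / 2), lt_min (by linarith) (by linarith), ?_, ?_⟩
  · have := min_le_left ((T - T') / 4) (ρ / 2)
    linarith
  intro t ht0 htr x v
  have hr1 := min_le_left ((T - T') / 4) (ρ / 2)
  have hr2 := min_le_right ((T - T') / 4) (ρ / 2)
  have htT : t ≤ T₁ := by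
    have := (abs_le.1 htr).2
    linarith
  have ht' : t ∈ Ico 0 T := ⟨ht0, htT.trans_lt h1⟩
  have hT'' : T' ∈ Ico 0 T := ⟨h0, hT⟩
  have hv := norm_nonneg v
  by_cases hvR : ‖v‖ ≤ R
  · have hper : Per fun y => |f t y v - f T' y v| := by
      intro y i
      beta_reduce
      rw [hf.periodic t ht', hf.periodic T' hT'']
    obtain ⟨y, hy, hyx⟩ := Boot_per hper x
    rw [← hyx]
    have hyn : ‖y‖ ≤ 1 := by
      rw [pi_norm_le_iff_of_nonneg zero_le_one]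
      intro i
      rw [Real.norm_eq_abs, abs_le]
      have h3 := hy.1 i
      have h4 := hy.2 i
      simp only [Pi.zero_apply, Pi.one_apply] at h3 h4
      constructor <;> linarith
    have hm : ∀ τ ∈ Icc (0 : ℝ) T₁, (τ, y, v) ∈ Icc (0 : ℝ) T₁ ×ˢ
        (Metric.closedBall (0 : Vec d) 1 ×ˢ Metric.closedBall (0 : Vec d) R) := by
      intro τ hτ
      exact ⟨hτ, mem_closedBall_zero_iff.2 hyn, mem_closedBall_zero_iff.2 hvR⟩
    have hdist : dist (t, y, v) (T', y, v) < ρ := by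
      rw [Prod.dist_eq, dist_self]
      refine max_lt ?_ hρ0
      rw [Real.dist_eq]
      linarith
    have h3 := hρ _ (hm t ⟨ht0, htT⟩) _ (hm T' ⟨h0, h2.le⟩) hdist
    rw [Real.dist_eq] at h3
    have h4 : |f t y v - f T' y v| < δ := h3
    refine h4.le.trans ?_
    rw [hδ]
    refine mul_le_mul_of_nonneg_left ?_ hε.le
    unfold Wp
    have h5 := sq_le v
    have h6 := sq_nonneg' v
    have h7 : nsq v ≤ d * R ^ 2 :=
      h5.trans (mul_le_mul_of_nonneg_left (pow_le_pow_left₀ hv hvR 2) (Nat.cast_nonneg d))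
    exact inv_anti₀ (by positivity) (pow_le_pow_left₀ (by linarith) (by linarith) _)
  · have hvR' : R ≤ ‖v‖ := (not_le.1 hvR).le
    have hp : 0 < (1 + ‖v‖) ^ (2 * (d + 10) + 1) := by positivity
    have hb : ∀ τ ∈ Icc (0 : ℝ) T₁, f τ x v ≤ C' * ((1 + ‖v‖) ^ (2 * (d + 10) + 1))⁻¹ := by
      intro τ hτ
      rw [← div_eq_mul_inv, le_div_iff₀ hp, mul_comm]
      exact (hC τ hτ x v).trans hCC
    have h3 : |f t x v - f T' x v| ≤ C' * ((1 + ‖v‖) ^ (2 * (d + 10) + 1))⁻¹ :=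
      abs_sub_le_of_nonneg_of_le (hf.nonneg t ht' _ _) (hb t ⟨ht0, htT⟩) (hf.nonneg T' hT'' _ _)
        (hb T' ⟨h0, h2.le⟩)
    refine h3.trans ?_
    have h4 := Boot_wp (d + 10) v
    have h5 : ((1 + ‖v‖) ^ (2 * (d + 10) + 1))⁻¹ = (1 + ‖v‖)⁻¹ * ((1 + ‖v‖) ^ (2 * (d + 10)))⁻¹ := by
      rw [pow_succ, mul_inv, mul_comm]
    have hW := Wp_pos (d + 10) v
    calc C' * ((1 + ‖v‖) ^ (2 * (d + 10) + 1))⁻¹
        = C' * (1 + ‖v‖)⁻¹ * ((1 + ‖v‖) ^ (2 * (d + 10)))⁻¹ := by rw [h5]; ring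
      _ ≤ C' * (1 + ‖v‖)⁻¹ * ((1 + d : ℝ) ^ (d + 10) * Wp (d + 10) v) :=
          mul_le_mul_of_nonneg_left h4 (by positivity)
      _ = M * (1 + ‖v‖)⁻¹ * Wp (d + 10) v := by rw [hM]; ring
      _ ≤ ε * Wp (d + 10) v := by
          refine mul_le_mul_of_nonneg_right ?_ hW.le
          rw [hRM, mul_assoc]
          have h6 : R * (1 + ‖v‖)⁻¹ ≤ 1 := by
            rw [← div_eq_mul_inv, div_le_one (by positivity)]
            linarith
          calc ε * (R * (1 + ‖v‖)⁻¹) ≤ ε * 1 := mul_le_mul_of_nonneg_left h6 hε.le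
            _ = ε := mul_one ε

private lemma Boot_tri {κ ε : ℝ} {F G : Vec d → Vec d → ℝ} (h : NH κ F)
    (hFG : ∀ x v : Vec d, |G x v - F x v| ≤ ε * Wp (d + 10) v) : NH (κ + 2 * ε) G := by
  intro x y v
  have h1 := h x y v
  have h2 := hFG x v
  have h3 := hFG y v
  rw [abs_le] at h1 h2 h3 ⊢
  constructor
  · nlinarith
  · nlinarith

theorem osc_ext (hf : IsClassicalSol T Q f) {T' κ κ' : ℝ} (h0 : 0 ≤ T') (hT : T' < T) (hκ : κ < κ')
    (h : NH κ (f T')) : ∃ r > 0, T' + r < T ∧ ∀ t ∈ Icc T' (T' + r), NH κ' (f t) := by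
  obtain ⟨r, hr0, hrT, hr⟩ := Boot_cont hf h0 hT (ε := (κ' - κ) / 2) (by linarith)
  refine ⟨r, hr0, hrT, fun t ht => ?_⟩
  have h1 : |t - T'| ≤ r := by
    rw [abs_le]
    constructor
    · linarith [ht.1]
    · linarith [ht.2]
  have h2 := Boot_tri h (hr t (h0.trans ht.1) h1)
  have e : κ + 2 * ((κ' - κ) / 2) = κ' := by ring
  rwa [e] at h2

theorem osc_lim (hf : IsClassicalSol T Q f) {T' κ : ℝ} (h0 : 0 < T') (hT : T' < T)
    (h : ∀ t ∈ Ico 0 T', NH κ (f t)) : NH κ (f T') := by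
  intro x y v
  refine le_of_forall_pos_le_add fun ε hε => ?_
  obtain ⟨r, hr0, hrT, hr⟩ := Boot_cont hf h0.le hT (ε := ε / 2) (by linarith)
  obtain ⟨t, ht⟩ : ∃ t : ℝ, t = max 0 (T' - r) := ⟨_, rfl⟩
  have ht0 : 0 ≤ t := by rw [ht]; exact le_max_left _ _
  have ht1 : T' - r ≤ t := by rw [ht]; exact le_max_right _ _
  have ht2 : t < T' := by rw [ht]; exact max_lt h0 (by linarith)
  have h1 : |t - T'| ≤ r := by
    rw [abs_le]
    constructor <;> linarith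
  have h2 := Boot_tri (h t ⟨ht0, ht2⟩) (G := f T') (ε := ε / 2) (fun x v => by
    rw [abs_sub_comm]
    exact hr t ht0 h1 x v) x y v
  refine h2.trans ?_
  have hW := Wp_le_one (d + 10) v
  have e : (κ + 2 * (ε / 2)) * Wp (d + 10) v = κ * Wp (d + 10) v + ε * Wp (d + 10) v := by ring
  rw [e]
  have : ε * Wp (d + 10) v ≤ ε * 1 := mul_le_mul_of_nonneg_left hW hε.le
  linarith

theorem osc_boot (hf : IsClassicalSol T Q f) {T₀ κ : ℝ} (hκ : 0 < κ) (hz : NH (κ / 2) (f 0))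
    (h : ∀ T' : ℝ, 0 < T' → T' ≤ T → T' ≤ T₀ → (∀ t ∈ Ico 0 T', NH κ (f t)) →
      ∀ t ∈ Ico 0 T', NH (κ / 2) (f t)) :
    ∀ t ∈ Ico 0 T, t < T₀ → NH κ (f t) := by
  intro t ht htT
  by_contra hcon
  obtain ⟨S, hS⟩ : ∃ S : Set ℝ, S = {t : ℝ | 0 ≤ t ∧ t < T ∧ t < T₀ ∧ ¬ NH κ (f t)} := ⟨_, rfl⟩
  have htS : t ∈ S := by rw [hS]; exact ⟨ht.1, ht.2, htT, hcon⟩
  have hbd : BddBelow S := ⟨0, fun τ hτ => by rw [hS] at hτ; exact hτ.1⟩
  obtain ⟨τ, hτ⟩ : ∃ τ : ℝ, τ = sInf S := ⟨_, rfl⟩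
  have hτt : τ ≤ t := by rw [hτ]; exact csInf_le hbd htS
  have hτ0 : 0 ≤ τ := by
    rw [hτ]
    exact le_csInf ⟨t, htS⟩ fun σ hσ => by rw [hS] at hσ; exact hσ.1
  have hτT : τ < T := hτt.trans_lt ht.2
  have hτT₀ : τ < T₀ := hτt.trans_lt htT
  have hbelow : ∀ σ ∈ Ico 0 τ, NH κ (f σ) := by
    intro σ hσ
    by_contra hno
    have h1 : σ ∈ S := by
      rw [hS]
      exact ⟨hσ.1, hσ.2.trans hτT, hσ.2.trans hτT₀, hno⟩
    have h2 : τ ≤ σ := by rw [hτ]; exact csInf_le hbd h1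
    linarith [hσ.2]
  have hhalf : NH (κ / 2) (f τ) := by
    rcases hτ0.eq_or_lt with h1 | h1
    · rw [← h1]
      exact hz
    · exact osc_lim hf h1 hτT (h τ h1 hτT.le hτT₀.le hbelow)
  obtain ⟨r, hr0, hrT, hr⟩ := osc_ext hf hτ0 hτT (κ' := κ) (by linarith) hhalf
  have h3 : τ + r ≤ τ := by
    conv_rhs => rw [hτ]
    refine le_csInf ⟨t, htS⟩ fun σ hσ => ?_
    by_contra hlt
    push Not at hlt
    have h4 : τ ≤ σ := by rw [hτ]; exact csInf_le hbd hσ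
    rw [hS] at hσ
    exact hσ.2.2.2 (hr σ ⟨h4, hlt.le⟩)
  linarith

end Pool.Agent.H37.GH
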