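import Pool.Agent.H37.GH.Defs
import Pool.Agent.H48.PR.HolD

/-!
# Module Dat: initial data close to a homogeneous Hoelder function

`F v` with decay constants (`(1+‖v‖)^N F v ≤ B' N`), Hoelder: `|F v - F w| ≤ A (1+‖v‖+‖w‖)^k ‖v-w‖^α₀`, `2s < α₀ ≤ 1`. Take `α' < α₀`, `2s < α' < 1`.
* `dat_q`: for `‖v-w‖ ≤ 1`: `|F v - F w| ≤ Γ₁ len(v-w)^α' Wp (d+12) v` (interpolation between Hoelder and decay: `hol_data`, H48/PR/HolD.lean, for the constant family). If `len (v-w) ≥ 1`: `f 0 x v ≤ C Wp (d+12) v`, `f 0 y w ≥ 0`: take `Γ₀ ≥ C`. `f 0 x v - f 0 y w = (f 0 x v - F v) + (F v - F w) + (F w - f 0 y w)`; `|f 0 x v - F v| ≤ min(ε, C_q (1+‖v‖)^(-q)) ≤ δ/2 · Wp (d+12) v` for `ε` small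
(if `‖v‖ ≤ R`: `ε ≤ δ/2 Wp (d+12) v`, `v` in a bounded set; if `‖v‖ > R`: decay of order `2(d+12)+1`); for `len(v-w) ≤ 1`, `|F w - f 0 y w| ≤ δ/2 Wp (d+12) v` in the same way (`‖w‖ ≥ ‖v‖ - 1`).
* `dat_m`: `mdT (f 0) μ ≤ ι` where `mass, momentum, energy` of `μ` are those of `F`: `|∫ (f 0 - F) φ dν| ≤ ∫ min(ε, C_q (1+‖v‖)^(-q)) |φ| dv ≤ ι/(d+2)` for `ε` small (`|φ| ≤ (d+1)(1+‖v‖)²`).
-/

set_option autoImplicit false

open MeasureTheory Set Filter Topology Pool.Agent.H25.Kin Pool.Agent.H48.PL Pool.Agent.H48.PR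
open Pool.Agent.H15.AV (Slice nu_integral)

namespace Pool.Agent.H37.GH

variable {d : ℕ}

private lemma dat_sqrt {E ε C m : ℝ} {n : ℕ} (hE : 0 ≤ E) (h1 : E ≤ ε) (hm : 0 < m)
    (h2 : m ^ (2 * n) * E ≤ C) : E ≤ Real.sqrt (ε * C) * (m ^ n)⁻¹ := by
  have h3 : (E * m ^ n) ^ 2 ≤ ε * C := by
    have e : (E * m ^ n) ^ 2 = E * (m ^ (2 * n) * E) := by ring
    rw [e]
    exact mul_le_mul h1 h2 (by positivity) (hE.trans h1)
  have h4 : E * m ^ n ≤ Real.sqrt (ε * C) := Real.le_sqrt_of_sq_le h3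
  rw [← div_eq_mul_inv, le_div_iff₀ (by positivity)]
  exact h4

private lemma dat_eps {C K : ℝ} (hC : 0 ≤ C) (hK : 0 ≤ K) {δ : ℝ} (hδ : 0 < δ) :
    ∃ ε > 0, Real.sqrt (ε * C) * K ≤ δ := by
  refine ⟨(δ / (K + 1)) ^ 2 / (C + 1), by positivity, ?_⟩
  have h1 : (δ / (K + 1)) ^ 2 / (C + 1) * C ≤ (δ / (K + 1)) ^ 2 := by
    rw [div_mul_eq_mul_div, div_le_iff₀ (by positivity)]
    exact mul_le_mul_of_nonneg_left (by linarith) (by positivity)
  have h2 : Real.sqrt ((δ / (K + 1)) ^ 2 / (C + 1) * C) ≤ δ / (K + 1) := by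
    refine (Real.sqrt_le_sqrt h1).trans ?_
    rw [Real.sqrt_sq (by positivity)]
  calc Real.sqrt ((δ / (K + 1)) ^ 2 / (C + 1) * C) * K ≤ δ / (K + 1) * K :=
        mul_le_mul_of_nonneg_right h2 hK
    _ ≤ δ := by
        rw [div_mul_eq_mul_div, div_le_iff₀ (by positivity)]
        exact mul_le_mul_of_nonneg_left (by linarith) hδ.le

/-- the difference of a function near `F` and `F`, with weight -/
private lemma dat_dif {F : Vec d → ℝ} (hF : Slice (fun _ : Vec d => F)) (B : ℕ → ℝ) (n : ℕ) :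
    ∃ C : ℝ, 0 ≤ C ∧ ∀ ε : ℝ, ∀ G : Vec d → Vec d → ℝ, Slice G → DC B G →
      (∀ x v, |G x v - F v| ≤ ε) →
      ∀ x v, |G x v - F v| ≤ Real.sqrt (ε * C) * ((1 + ‖v‖) ^ n)⁻¹ := by
  obtain ⟨C, hC⟩ := hF.decay (2 * n)
  refine ⟨|B (2 * n)| + |C|, by positivity, fun ε G hG hD hε x v => ?_⟩
  refine dat_sqrt (abs_nonneg _) (hε x v) (w_pos v) ?_
  have h1 := hD (2 * n) x v
  have h2 := hC x v
  have hw : 0 ≤ (1 + ‖v‖) ^ (2 * n) := pow_nonneg (w_pos v).le _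
  have h3 : |G x v - F v| ≤ G x v + F v := by
    have a := hG.nonneg x v
    have b := hF.nonneg x v
    rw [abs_le]
    constructor <;> linarith
  calc (1 + ‖v‖) ^ (2 * n) * |G x v - F v| ≤ (1 + ‖v‖) ^ (2 * n) * (G x v + F v) :=
        mul_le_mul_of_nonneg_left h3 hw
    _ = (1 + ‖v‖) ^ (2 * n) * G x v + (1 + ‖v‖) ^ (2 * n) * F v := mul_add _ _ _
    _ ≤ |B (2 * n)| + |C| := add_le_add (h1.trans (le_abs_self _)) (h2.trans (le_abs_self _))

private lemma dat_wp (p : ℕ) (v : Vec d) :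
    ((1 + ‖v‖) ^ (2 * p))⁻¹ ≤ ((d : ℝ) + 1) ^ p * Wp p v := by
  have h1 : 1 + nsq v ≤ ((d : ℝ) + 1) * (1 + ‖v‖) ^ 2 := by
    have h2 := sq_le v
    have h3 : 0 ≤ ‖v‖ := norm_nonneg v
    have h4 : (0 : ℝ) ≤ d := Nat.cast_nonneg d
    nlinarith [mul_nonneg h4 h3, mul_nonneg h3 h3]
  have h5 : 0 < 1 + nsq v := by linarith [sq_nonneg' v]
  have h6 : 0 < 1 + ‖v‖ := by linarith [norm_nonneg v]
  unfold Wp
  rw [← div_eq_mul_inv, le_div_iff₀ (pow_pos h5 p), inv_mul_le_iff₀ (by positivity)]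
  calc (1 + nsq v) ^ p ≤ (((d : ℝ) + 1) * (1 + ‖v‖) ^ 2) ^ p := pow_le_pow_left₀ h5.le h1 p
    _ = (1 + ‖v‖) ^ (2 * p) * ((d : ℝ) + 1) ^ p := by rw [mul_pow, ← pow_mul]; ring

private lemma dat_near (p : ℕ) {v w : Vec d} (h : len (v - w) ≤ 1) :
    ((1 + ‖w‖) ^ (2 * p))⁻¹ ≤ 2 ^ (2 * p) * (((d : ℝ) + 1) ^ p * Wp p v) := by
  have h1 : ‖v‖ ≤ ‖w‖ + 1 := by
    have a := norm_le_len (v - w)
    have b := norm_add_le (v - w) w
    rw [sub_add_cancel] at b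
    linarith
  have h2 : (1 + ‖v‖) ^ (2 * p) ≤ 2 ^ (2 * p) * (1 + ‖w‖) ^ (2 * p) := by
    rw [← mul_pow]
    exact pow_le_pow_left₀ (w_pos v).le (by linarith [norm_nonneg w]) _
  have h3 : ((1 + ‖w‖) ^ (2 * p))⁻¹ ≤ 2 ^ (2 * p) * ((1 + ‖v‖) ^ (2 * p))⁻¹ := by
    have a := pow_pos (w_pos v) (2 * p)
    have b := pow_pos (w_pos w) (2 * p)
    rw [← div_eq_mul_inv, le_div_iff₀ a, inv_mul_le_iff₀ b]
    linarith
  exact h3.trans (mul_le_mul_of_nonneg_left (dat_wp p v) (by positivity))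

private lemma dat_ibd {F : Vec d → Vec d → ℝ} (hF : Slice F) {p : Vec d → ℝ} (hp : Measurable p)
    {K : ℝ} (hK : 0 ≤ K) (hpb : ∀ v, |p v| ≤ K * (1 + ‖v‖) ^ 2) :
    Integrable (fun q : Vec d × Vec d => F q.2 q.1 * p q.1) (nu d) := by
  obtain ⟨C, hC⟩ := hF.decay (d + 1 + 2)
  have hm : Measurable fun q : Vec d × Vec d => F q.2 q.1 :=
    (hF.cont.comp (continuous_snd.prodMk continuous_fst)).measurable
  refine integrable_nu (C := K * C) (hm.mul (hp.comp measurable_fst)).aestronglyMeasurable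
    fun q => ?_
  rw [abs_mul, abs_of_nonneg (hF.nonneg _ _)]
  have h1 := hC q.2 q.1
  have hw := w_pos q.1
  have h3 : (1 + ‖q.1‖) ^ 2 * F q.2 q.1 ≤ C * wt d q.1 := by
    unfold wt
    rw [← div_eq_mul_inv, le_div_iff₀ (pow_pos hw _)]
    calc (1 + ‖q.1‖) ^ 2 * F q.2 q.1 * (1 + ‖q.1‖) ^ (d + 1) =
        (1 + ‖q.1‖) ^ (d + 1 + 2) * F q.2 q.1 := by ring
      _ ≤ C := h1
  calc F q.2 q.1 * |p q.1| ≤ F q.2 q.1 * (K * (1 + ‖q.1‖) ^ 2) :=
        mul_le_mul_of_nonneg_left (hpb q.1) (hF.nonneg _ _)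
    _ = K * ((1 + ‖q.1‖) ^ 2 * F q.2 q.1) := by ring
    _ ≤ K * (C * wt d q.1) := mul_le_mul_of_nonneg_left h3 hK
    _ = _ := by ring

private lemma dat_muD : (muD d).real univ = 1 := by
  unfold muD Measure.real
  rw [Measure.restrict_apply_univ, Real.volume_Icc_pi]
  simp

/-- one moment -/
private lemma dat_term {F : Vec d → ℝ} (hF : Slice (fun _ : Vec d => F))
    {G : Vec d → Vec d → ℝ} (hG : Slice G) {φ : Vec d → ℝ} (hφ : Measurable φ) {K : ℝ}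
    (hK : 0 ≤ K) (hb : ∀ v, |φ v| ≤ K * (1 + ‖v‖) ^ 2) {κ : ℝ}
    (hκ : ∀ x v, |G x v - F v| ≤ κ * ((1 + ‖v‖) ^ (d + 3))⁻¹) :
    |(∫ q, G q.2 q.1 * φ q.1 ∂(nu d)) - ∫ v, F v * φ v| ≤
      κ * (K * ∫ q : Vec d × Vec d, wt d q.1 ∂(nu d)) := by
  have iG := dat_ibd hG hφ hK hb
  have iF : Integrable (fun q : Vec d × Vec d => F q.1 * φ q.1) (nu d) := dat_ibd hF hφ hK hb
  have e1 : ∫ q : Vec d × Vec d, F q.1 * φ q.1 ∂(nu d) = ∫ v, F v * φ v := by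
    rw [nu_integral iF]
    show ∫ _x, (∫ v, F v * φ v) ∂(muD d) = _
    rw [integral_const, dat_muD, one_smul]
  rw [← e1, ← integral_sub iG iF]
  refine abs_integral_le_integral_abs.trans ?_
  rw [← integral_const_mul, ← integral_const_mul]
  have iw : Integrable (fun q : Vec d × Vec d => κ * (K * wt d q.1)) (nu d) :=
    (((integrable_wt (d := d)).comp_fst (muD d)).const_mul K).const_mul κ
  refine integral_mono_of_nonneg (Eventually.of_forall fun q => abs_nonneg _) iw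
    (Eventually.of_forall fun q => ?_)
  show |G q.2 q.1 * φ q.1 - F q.1 * φ q.1| ≤ κ * (K * wt d q.1)
  rw [← sub_mul, abs_mul]
  have hw := w_pos q.1
  have h1 := hκ q.2 q.1
  have h2 := hb q.1
  calc |G q.2 q.1 - F q.1| * |φ q.1|
      ≤ (κ * ((1 + ‖q.1‖) ^ (d + 3))⁻¹) * (K * (1 + ‖q.1‖) ^ 2) :=
        mul_le_mul h1 h2 (abs_nonneg _) ((abs_nonneg _).trans h1)
    _ = κ * (K * wt d q.1) := by
        unfold wt
        have e : (1 + ‖q.1‖) ^ (d + 3) = (1 + ‖q.1‖) ^ (d + 1) * (1 + ‖q.1‖) ^ 2 := by ring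
        rw [e, mul_inv]
        field_simp

theorem dat_q {F : Vec d → ℝ} (hF : Slice (fun _ : Vec d => F)) {α₀ α : ℝ}
    (hH : HolData α₀ fun _ : Vec d => F) (h0 : 0 < α) (h1 : α < α₀) (B : ℕ → ℝ) : ∃ Γ₀ : ℝ,
    ∀ δ > 0, ∃ ε > 0, ∀ G : Vec d → Vec d → ℝ, Slice G → DC B G → (∀ x v, |G x v - F v| ≤ ε) →
      ∀ x y v w : Vec d, G x v - G y w ≤ (δ + Γ₀ * min 1 (len (v - w)) ^ α) * Wp (d + 12) v := by
  have hα₀ : 0 < α₀ := h0.trans h1
  obtain ⟨C₀, hC₀⟩ := hol_data (F₀ := fun _ : Vec d => F) hF.nonneg hF.decay h0 h1 hH (d + 12)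
  refine ⟨|C₀| + |B (2 * (d + 12))| * ((d : ℝ) + 1) ^ (d + 12), fun δ hδ => ?_⟩
  obtain ⟨C, hC, hdif⟩ := dat_dif hF B (2 * (d + 12))
  obtain ⟨ε, hε, hε2⟩ := dat_eps hC
    (K := 2 ^ (2 * (d + 12)) * ((d : ℝ) + 1) ^ (d + 12)) (by positivity) (half_pos hδ)
  refine ⟨ε, hε, fun G hG hD hGF x y v w => ?_⟩
  have hW := Wp_pos (d + 12) v
  have hs := Real.sqrt_nonneg (ε * C)
  by_cases hl : 1 ≤ len (v - w)
  · rw [min_eq_left hl, Real.one_rpow, mul_one]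
    have a1 := hG.nonneg y w
    have a2 := hD (2 * (d + 12)) x v
    have a3 : G x v ≤ |B (2 * (d + 12))| * ((1 + ‖v‖) ^ (2 * (d + 12)))⁻¹ := by
      rw [← div_eq_mul_inv, le_div_iff₀ (pow_pos (w_pos v) _), mul_comm]
      exact a2.trans (le_abs_self _)
    have a4 : |B (2 * (d + 12))| * ((1 + ‖v‖) ^ (2 * (d + 12)))⁻¹ ≤
        |B (2 * (d + 12))| * (((d : ℝ) + 1) ^ (d + 12) * Wp (d + 12) v) :=
      mul_le_mul_of_nonneg_left (dat_wp (d + 12) v) (abs_nonneg _)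
    have a5 : 0 ≤ (δ + |C₀|) * Wp (d + 12) v := by positivity
    have e : (δ + (|C₀| + |B (2 * (d + 12))| * ((d : ℝ) + 1) ^ (d + 12))) * Wp (d + 12) v =
        (δ + |C₀|) * Wp (d + 12) v +
          |B (2 * (d + 12))| * (((d : ℝ) + 1) ^ (d + 12) * Wp (d + 12) v) := by ring
    rw [e]
    linarith
  · push Not at hl
    rw [min_eq_right hl.le]
    have hα : 0 ≤ len (v - w) ^ α := Real.rpow_nonneg (len_nonneg _) _
    have b1 : G x v - F v ≤ δ / 2 * Wp (d + 12) v := by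
      have c1 := (le_abs_self _).trans (hdif ε G hG hD hGF x v)
      have c2 : ((1 + ‖v‖) ^ (2 * (d + 12)))⁻¹ ≤
          2 ^ (2 * (d + 12)) * (((d : ℝ) + 1) ^ (d + 12) * Wp (d + 12) v) := by
        refine (dat_wp (d + 12) v).trans ?_
        have : (1 : ℝ) ≤ 2 ^ (2 * (d + 12)) := one_le_pow₀ (by norm_num)
        exact le_mul_of_one_le_left (by positivity) this
      have c3 := mul_le_mul_of_nonneg_left c2 hs
      have c4 := mul_le_mul_of_nonneg_right hε2 hW.le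
      calc G x v - F v ≤ _ := c1.trans c3
        _ = Real.sqrt (ε * C) * (2 ^ (2 * (d + 12)) * ((d : ℝ) + 1) ^ (d + 12)) *
              Wp (d + 12) v := by ring
        _ ≤ _ := c4
    have b2 : F w - G y w ≤ δ / 2 * Wp (d + 12) v := by
      have c1 := hdif ε G hG hD hGF y w
      rw [abs_sub_comm] at c1
      have c2 := dat_near (d + 12) hl.le
      have c3 := mul_le_mul_of_nonneg_left c2 hs
      have c4 := mul_le_mul_of_nonneg_right hε2 hW.le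
      calc F w - G y w ≤ _ := ((le_abs_self _).trans c1).trans c3
        _ = Real.sqrt (ε * C) * (2 ^ (2 * (d + 12)) * ((d : ℝ) + 1) ^ (d + 12)) *
              Wp (d + 12) v := by ring
        _ ≤ _ := c4
    have b3 : F v - F w ≤ |C₀| * len (v - w) ^ α * Wp (d + 12) v := by
      have hη : len (w - v) ≤ 1 := by rw [len_comm]; exact hl.le
      have c1 := hC₀ 0 v 0 (w - v) hη
      have e1 : v + (w - v) = w := by abel
      have e2 : nsq (0 : Vec d) + nsq (w - v) = len (v - w) ^ 2 := by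
        rw [len_comm, len_sq]
        have : nsq (0 : Vec d) = 0 := by unfold nsq; simp
        rw [this, zero_add]
      have e3 : (len (v - w) ^ 2) ^ (α / 2) = len (v - w) ^ α := by
        rw [← Real.rpow_natCast, ← Real.rpow_mul (len_nonneg _)]
        congr 1
        push_cast
        ring
      rw [e2, e3] at c1
      have c2 : |F w - F v| ≤ C₀ * len (v - w) ^ α * Wp (d + 12) v := by
        have := c1
        simp only [e1] at this
        exact this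
      have c3 : C₀ * len (v - w) ^ α * Wp (d + 12) v ≤
          |C₀| * len (v - w) ^ α * Wp (d + 12) v :=
        mul_le_mul_of_nonneg_right (mul_le_mul_of_nonneg_right (le_abs_self _) hα) hW.le
      rw [abs_sub_comm] at c2
      exact ((le_abs_self _).trans c2).trans c3
    have b4 : 0 ≤ |B (2 * (d + 12))| * ((d : ℝ) + 1) ^ (d + 12) * len (v - w) ^ α *
        Wp (d + 12) v := by positivity
    have e : (δ + (|C₀| + |B (2 * (d + 12))| * ((d : ℝ) + 1) ^ (d + 12)) *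
        len (v - w) ^ α) * Wp (d + 12) v = δ / 2 * Wp (d + 12) v + δ / 2 * Wp (d + 12) v +
          |C₀| * len (v - w) ^ α * Wp (d + 12) v +
          |B (2 * (d + 12))| * ((d : ℝ) + 1) ^ (d + 12) * len (v - w) ^ α *
            Wp (d + 12) v := by ring
    rw [e]
    linarith

theorem dat_m {F : Vec d → ℝ} (hF : Slice (fun _ : Vec d => F)) (B : ℕ → ℝ) {μ : Vec d → ℝ}
    (h1 : ∫ v, F v = ∫ v, μ v) (h2 : ∀ i, ∫ v, F v * v i = ∫ v, μ v * v i)
    (h3 : ∫ v, F v * nsq v = ∫ v, μ v * nsq v) {ι : ℝ} (hι : 0 < ι) : ∃ ε > 0,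
    ∀ G : Vec d → Vec d → ℝ, Slice G → DC B G → (∀ x v, |G x v - F v| ≤ ε) → mdT G μ ≤ ι := by
  obtain ⟨C, hC, hdif⟩ := dat_dif hF B (d + 3)
  set J : ℝ := ∫ q : Vec d × Vec d, wt d q.1 ∂(nu d) with hJ
  have hJ0 : 0 ≤ J := integral_nonneg fun q => wt_nonneg _
  have hd0 : (0 : ℝ) ≤ d := Nat.cast_nonneg d
  obtain ⟨ε, hε, hε2⟩ := dat_eps hC
    (K := ((d : ℝ) + 2) * (((d : ℝ) + 1) * J)) (by positivity) hι
  refine ⟨ε, hε, fun G hG hD hGF => ?_⟩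
  have hκ := hdif ε G hG hD hGF
  have hK : (0 : ℝ) ≤ (d : ℝ) + 1 := by positivity
  set κ := Real.sqrt (ε * C) with hκdef
  have t1 := dat_term hF hG (φ := fun _ => (1 : ℝ)) measurable_const hK (fun v => by
    rw [abs_one]
    have a : (1 : ℝ) ≤ (1 + ‖v‖) ^ 2 := one_le_pow₀ (by linarith [norm_nonneg v])
    nlinarith) hκ
  have t2 : ∀ i : Fin d, |(∫ q, G q.2 q.1 * q.1 i ∂(nu d)) - ∫ v, F v * v i| ≤
      κ * (((d : ℝ) + 1) * J) := fun i =>
    dat_term hF hG (φ := fun v => v i) (measurable_pi_apply i) hK (fun v => by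
      have a := norm_le_pi_norm v i
      rw [Real.norm_eq_abs] at a
      have b := norm_nonneg v
      have c : ‖v‖ ≤ (1 + ‖v‖) ^ 2 := by nlinarith
      nlinarith [mul_nonneg hd0 (sq_nonneg (1 + ‖v‖))]) hκ
  have t3 := dat_term hF hG (φ := nsq) continuous_sq.measurable hK (fun v => by
    rw [abs_of_nonneg (sq_nonneg' v)]
    have a := sq_le v
    have b := norm_nonneg v
    have c : ‖v‖ ^ 2 ≤ (1 + ‖v‖) ^ 2 := pow_le_pow_left₀ b (by linarith) 2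
    nlinarith [mul_le_mul_of_nonneg_left c hd0, sq_nonneg (1 + ‖v‖)]) hκ
  simp only [mul_one] at t1
  have t2s : ∑ i, |(∫ q, G q.2 q.1 * q.1 i ∂(nu d)) - ∫ v, μ v * v i| ≤
      (d : ℝ) * (κ * (((d : ℝ) + 1) * J)) := by
    calc ∑ i, |(∫ q, G q.2 q.1 * q.1 i ∂(nu d)) - ∫ v, μ v * v i|
        ≤ ∑ _i : Fin d, κ * (((d : ℝ) + 1) * J) := by
          refine Finset.sum_le_sum fun i _ => ?_
          rw [← h2 i]
          exact t2 i
      _ = (d : ℝ) * (κ * (((d : ℝ) + 1) * J)) := by simp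
  unfold mdT
  rw [← h1, ← h3]
  have e : κ * (((d : ℝ) + 2) * (((d : ℝ) + 1) * J)) = κ * (((d : ℝ) + 1) * J) +
      (d : ℝ) * (κ * (((d : ℝ) + 1) * J)) + κ * (((d : ℝ) + 1) * J) := by ring
  rw [e] at hε2
  linarith

end Pool.Agent.H37.GH
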