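import Pool.Agent.H37.LT.Defs
import Pool.Agent.H48.PL.Glob

/-!
# `G_hom`: nearly homogeneous solutions without comparison solution (MP_c15324_an, THEOREM V): definitions

STATEMENT (`g_hom`, module Fin). `0 < γ`, `2s < 1`, `γ + 2s < 2`, `F(v) ≥ 0` Hoelder continuous of an order `> 2s`, not `0`, rapidly decaying, `B : ℕ → ℝ`. There are `ε > 0`, decay constants `U`, `m₁ > 0`: every classical solution `f` (no symmetry) on `[0,T)`, any `T`, with `(1+|v|)^N f(0) ≤ B_N` and `|f(0) - F| ≤ ε` satisfies `(1+|v|)^N f ≤ U_N` and has mass density `≥ m₁` on `[0,T)`.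

PROOF. `NH κ F`: `|F x v - F y v| ≤ κ Wp (d+10) v`, nearly independent of `x`. `μ = mx a k u` = Maxwellian with the invariants of `F`.
(1) NSup: as long as `NH κ₁ (f t)`, the decay constants are `U`, the mass density is `≥ m`, where `κ₁, U` depend on `B` and the mass of `F` only, not on time (maximum principle slice by slice).
(2) QH (helper87, `qh`): quasi Hoelder propagation: on `[0,T₀]`, `|f t x v - f t y v| ≤ K(T₀) δ Wp (d+12) v` if `f 0 x v - f 0 y w ≤ (δ + Γ₀ min(1,|v-w|)^α) Wp (d+12) v`; Dat: the initial value has this property with `δ → 0` as `ε → 0`. Boot: so `NH κ (f t)` on `[0, min T T₀)` for any `κ`, if `ε` is small.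
(3) L1N: entropy dissipation and the slice lemma of block P1: at some time `r ∈ [1,L]`, `∫∫ |f(r) - μ| ≤ ε₂`; the relative entropy does not increase, so `∫∫ |f(t) - μ| ≤ e/2` for `t ≥ r`, and by `NH`, `∫ |f t x v - μ v| dv ≤ e` at every `x`.
(4) helper71's `sup_hom`, helper85's `low_l1`: `|f(r+2) - μ| ≤ ε'`; (5) `near_eq` (part N) from time `r + 2` on.
-/

set_option autoImplicit false

open MeasureTheory Set Filter Topology Pool.Agent.H25.Kin Pool.Agent.H48.PR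

namespace Pool.Agent.H37.GH

variable {d : ℕ}

/-- nearly independent of `x` -/
def NH (κ : ℝ) (F : Vec d → Vec d → ℝ) : Prop := ∀ x y v : Vec d, |F x v - F y v| ≤ κ * Wp (d + 10) v

/-- decay constants -/
def DC (Cl : ℕ → ℝ) (F : Vec d → Vec d → ℝ) : Prop :=
  ∀ (N : ℕ) (x v : Vec d), (1 + ‖v‖) ^ N * F x v ≤ Cl N

/-- the average over the torus -/
noncomputable def av (F : Vec d → Vec d → ℝ) (v : Vec d) : ℝ := ∫ x, F x v ∂(muD d)

/-- differences of the total mass, momentum, energy of `F` and of `μ` -/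
noncomputable def mdT (F : Vec d → Vec d → ℝ) (μ : Vec d → ℝ) : ℝ :=
  |(∫ q, F q.2 q.1 ∂(nu d)) - ∫ v, μ v| +
    (∑ i, |(∫ q, F q.2 q.1 * q.1 i ∂(nu d)) - ∫ v, μ v * v i|) +
    |(∫ q, F q.2 q.1 * nsq q.1 ∂(nu d)) - ∫ v, μ v * nsq v|

/-- quasi Hoelder propagation (the statement of helper87's `qh`) -/
def QHP (d : ℕ) (s γ : ℝ) (b : ℝ → ℝ) : Prop :=
  ∀ (Cl : ℕ → ℝ) (m : ℝ), 0 < m → ∀ α : ℝ, 2 * s < α → α < 1 → ∀ T₀ Γ₀ : ℝ, ∃ K : ℝ, 0 ≤ K ∧
    ∀ δ ∈ Ioc (0 : ℝ) 1, ∀ T ≤ T₀, ∀ f : ℝ → Vec d → Vec d → ℝ, IsBoltzmannSol γ b T f →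
      (∀ t ∈ Ico 0 T, DC Cl (f t)) → (∀ t ∈ Ico 0 T, ∀ x, m ≤ ∫ v, f t x v) →
      (∀ x y v w : Vec d, f 0 x v - f 0 y w ≤ (δ + Γ₀ * min 1 (len (v - w)) ^ α) * Wp (d + 12) v) →
      ∀ t ∈ Ico 0 T, ∀ x y v : Vec d, |f t x v - f t y v| ≤ K * δ * Wp (d + 12) v

end Pool.Agent.H37.GH
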