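import Pool.Agent.H37.GH.Main
import Pool.Agent.H37.SB.Cmp
import Pool.Agent.H87.QH.FinQ

/-!
# `G_hom`: neighbourhoods of space homogeneous data, without a comparison solution
-/

set_option autoImplicit false

open MeasureTheory Set Filter Topology Pool.Agent.H25.Kin Pool.Agent.H48.PL Pool.Agent.H48.PR
open Pool.Agent.H82.CM (HypL exists_hypL)
open Pool.Agent.H15.AV (Slice)

namespace Pool.Agent.H37.GH

variable {d : ℕ}

theorem qhp {s γ C Ca cb : ℝ} {b : ℝ → ℝ} (HL : HypL d γ s b C Ca cb) (h0 : 0 ≤ γ) (hs : 2 * s < 1) :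
    QHP d s γ b := by
  intro Cl m hm α h1 h2 T₀ Γ₀
  obtain ⟨K, hK, h⟩ := Pool.Agent.H87.QH.qh_osc HL h0 hs h1 h2.le (p := d + 12) le_rfl Cl hm T₀ Γ₀
  refine ⟨K, hK, fun δ hδ T hT f hf hD hM hq => ?_⟩
  refine h δ hδ.1 hδ.2 T hT f hf (fun N t ht x v => hD t ht N x v) hM fun x y v w hvw => ?_
  have h3 := hq x y v w
  rwa [min_eq_right hvw] at h3

/-- **`G_hom`**: every classical solution without symmetry which starts close (in the sup norm, with decay constants `B`) to a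
space homogeneous Hoelder continuous datum `F ≠ 0` has decay constants and a positive lower bound of the mass density
independent of time -/
theorem g_hom {s γ : ℝ} (hd : 2 ≤ d) (hs : 0 < s) (h0 : 0 ≤ γ) (hs1 : 2 * s < 1) (h2 : γ + 2 * s < 2)
    {b : ℝ → ℝ} (hb : IsKernel d s b) {F : Vec d → ℝ} (hF : Slice (fun _ : Vec d => F))
    (hm : 0 < ∫ v, F v) (hH : ∃ α : ℝ, 2 * s < α ∧ α ≤ 1 ∧ HolData α fun _ : Vec d => F) (B : ℕ → ℝ) :
    ∃ ε > 0, ∃ U : ℕ → ℝ, ∃ m₁ > 0, ∀ (T : ℝ) (f : ℝ → Vec d → Vec d → ℝ), IsBoltzmannSol γ b T f →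
      (∀ (N : ℕ) (x v : Vec d), (1 + ‖v‖) ^ N * f 0 x v ≤ B N) → (∀ x v, |f 0 x v - F v| ≤ ε) →
      ∀ t ∈ Ico 0 T, ∀ x, (∀ (N : ℕ) (v : Vec d), (1 + ‖v‖) ^ N * f t x v ≤ U N) ∧
        m₁ ≤ ∫ v, f t x v := by
  obtain ⟨C, Ca, cb, HL⟩ := exists_hypL hd hs (by linarith : s < 1) (by linarith : 0 ≤ γ + 2 * s)
    h2.le hb
  obtain ⟨α, h3, h4, h5⟩ := hH
  exact g_core HL hb h0 hs1 h2 (Pool.Agent.H37.SB.slice_eps hd) (qhp HL h0 hs1) hF hm h3 h4 h5 B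

end Pool.Agent.H37.GH
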