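import Pool.Agent.H37.GH.MdN
import Pool.Agent.H37.GH.L1N
import Pool.Agent.H71.SH.Fin
import Pool.Agent.H85.LW.Low1
import Pool.Agent.H48.NE.ReB

/-!
# Module Late: closeness to the Maxwellian at some time
-/

set_option autoImplicit false

open MeasureTheory Set Filter Topology Pool.Agent.H25.Kin Pool.Agent.H48.PL Pool.Agent.H48.PR
open Pool.Agent.H82.CM (HypL)
open Pool.Agent.H15.AV (Slice sol_slice nu_integral)
open Pool.Agent.H48.NE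
open Pool.Agent.H48.CV (re_mono)
open Pool.Agent.H37.LT (SliceEps md)

namespace Pool.Agent.H37.GH

variable {d : ℕ} {s γ C Ca cb : ℝ} {b : ℝ → ℝ}

private lemma late_mdT_nn (F : Vec d → Vec d → ℝ) (μ : Vec d → ℝ) :
    |(∫ q, F q.2 q.1 ∂(nu d)) - ∫ v, μ v| ≤ mdT F μ := by
  unfold mdT
  have h1 : 0 ≤ ∑ i, |(∫ q, F q.2 q.1 * q.1 i ∂(nu d)) - ∫ v, μ v * v i| :=
    Finset.sum_nonneg fun i _ => abs_nonneg _
  have h2 := abs_nonneg ((∫ q, F q.2 q.1 * nsq q.1 ∂(nu d)) - ∫ v, μ v * nsq v)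
  linarith

theorem late (HL : HypL d γ s b C Ca cb) (hb : IsKernel d s b) (h0 : 0 ≤ γ) (hs1 : 2 * s < 1)
    (h2 : γ + 2 * s < 2) (hS : SliceEps d) (U : ℕ → ℝ) {m : ℝ} (hm : 0 < m) {a k : ℝ} (ha : 0 < a)
    (hk : 0 < k) (u : Vec d) {ε' : ℝ} (hε' : 0 < ε') : ∃ κ > 0, ∃ ι > 0, ∃ L : ℝ, 1 ≤ L ∧
      ∀ (T : ℝ) (f : ℝ → Vec d → Vec d → ℝ), IsBoltzmannSol γ b T f → L + 3 < T →
      (∀ t ∈ Ico 0 (L + 3), DC U (f t)) → (∀ t ∈ Ico 0 (L + 3), ∀ x, m ≤ ∫ v, f t x v) →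
      (∀ t ∈ Ico 0 (L + 3), NH κ (f t)) → mdT (f 0) (mx a k u) ≤ ι →
      ∃ r ∈ Icc 1 L, ∀ x v, |f (r + 2) x v - mx a k u v| ≤ ε' := by
  have hd := HL.H.hd
  have hs := HL.H.hs
  obtain ⟨R, hR, hsup⟩ := Pool.Agent.H71.SH.sup_hom hd hs h0 hs1 h2 hb U ha hk u (d + 10) hε'
  obtain ⟨cH, hcH, εl, hεl, hlow⟩ := Pool.Agent.H85.LW.low_l1 hd ⟨hs, by linarith⟩ h0 h2.le hb U
    ha hk u R
  obtain ⟨εs, hεs, hsup⟩ := hsup cH hcH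
  obtain ⟨e, he, he1, he2⟩ : ∃ e : ℝ, 0 < e ∧ e ≤ εl ∧ e ≤ εs :=
    ⟨min εl εs, lt_min hεl hεs, min_le_left _ _, min_le_right _ _⟩
  obtain ⟨C₁, hC₁, hl1x⟩ := l1_x ha hk u
  obtain ⟨κ₃, hκ₃, hκ₃'⟩ : ∃ κ₃ : ℝ, 0 < κ₃ ∧ κ₃ * C₁ ≤ e / 2 := by
    refine ⟨e / 2 / (C₁ + 1), by positivity, ?_⟩
    rw [div_mul_eq_mul_div, div_le_iff₀ (by positivity)]
    nlinarith
  obtain ⟨K₁, hK₁, hre⟩ := re_l1 ha hk u ((∫ v, mx a k u v) + 1)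
  obtain ⟨η₁, hη₁, hη₁K⟩ : ∃ η₁ : ℝ, 0 < η₁ ∧ K₁ * Real.sqrt η₁ ≤ e / 2 := by
    refine ⟨(e / 2 / (K₁ + 1)) ^ 2, by positivity, ?_⟩
    rw [Real.sqrt_sq (by positivity : 0 ≤ e / 2 / (K₁ + 1)), mul_div_assoc', div_le_iff₀ (by positivity)]
    nlinarith
  obtain ⟨ε₂, hε₂, hsm⟩ := re_small ha hk u U hη₁
  obtain ⟨κ₄, hκ₄, L, hL, hnl⟩ := nh_l1 HL h0 hS U hm ha hk u hε₂
  obtain ⟨C₂, hC₂, hmd⟩ := md_nh ha hk u
  obtain ⟨κ₅, hκ₅, hκ₅'⟩ : ∃ κ₅ : ℝ, 0 < κ₅ ∧ κ₅ * C₂ ≤ κ₄ / 2 := by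
    refine ⟨κ₄ / 2 / (C₂ + 1), by positivity, ?_⟩
    rw [div_mul_eq_mul_div, div_le_iff₀ (by positivity)]
    nlinarith
  obtain ⟨κ, hκ, hκa, hκb⟩ : ∃ κ : ℝ, 0 < κ ∧ κ ≤ κ₃ ∧ κ ≤ κ₅ :=
    ⟨min κ₃ κ₅, lt_min hκ₃ hκ₅, min_le_left _ _, min_le_right _ _⟩
  refine ⟨κ, hκ, min 1 (κ₄ / 2), lt_min one_pos (by positivity), L, hL,
    fun T f hf hT hD hM hN hι => ?_⟩
  have hι1 : mdT (f 0) (mx a k u) ≤ 1 := hι.trans (min_le_left _ _)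
  have hι2 : mdT (f 0) (mx a k u) ≤ κ₄ / 2 := hι.trans (min_le_right _ _)
  have hin : ∀ t ∈ Icc 1 (L + 2), t ∈ Ico 0 (L + 3) := fun t ht => ⟨by linarith [ht.1], by linarith [ht.2]⟩
  have hinT : ∀ t ∈ Icc 1 (L + 2), t ∈ Ico 0 T := fun t ht => ⟨by linarith [ht.1], by linarith [ht.2]⟩
  have hsl : ∀ t ∈ Icc 1 (L + 2), Slice (f t) := fun t ht => sol_slice hf (hinT t ht)
  have hsub : ∀ t ∈ Icc 1 L, t ∈ Icc 1 (L + 2) := fun t ht => ⟨ht.1, by linarith [ht.2]⟩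
  obtain ⟨r, hr, hr1⟩ := hnl T f hf (by linarith) (fun t ht => hD t (hin t (hsub t ht)))
    (fun t ht => hM t (hin t (hsub t ht))) (fun t ht x => by
      have h3 := hmd κ (f t) hκ.le (hsl t (hsub t ht)) (hN t (hin t (hsub t ht))) x
      rw [mdT_t HL hf (hinT t (hsub t ht))] at h3
      have h4 : κ * C₂ ≤ κ₅ * C₂ := mul_le_mul_of_nonneg_right hκb hC₂
      linarith)
  refine ⟨r, hr, ?_⟩
  have hr2 : r ∈ Icc 1 (L + 2) := hsub r hr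
  have hI := boltz_HasInvariants HL.H hf
  have hRE : ∀ τ ∈ Icc r (r + 2), RE a k u (f τ) ≤ η₁ := fun τ hτ =>
    (re_mono HL ha hk u hf (by linarith [hr.1]) hτ.1 (by linarith [hτ.2, hr.2])).trans
      (hsm (f r) (hsl r hr2) (hD r (hin r hr2)) hr1)
  have hmem : ∀ τ ∈ Icc r (r + 2), τ ∈ Icc 1 (L + 2) := fun τ hτ =>
    ⟨hr.1.trans hτ.1, by linarith [hτ.2, hr.2]⟩
  have hL1 : ∀ τ ∈ Icc r (r + 2), ∀ x, ∫ v, |f τ x v - mx a k u v| ≤ e := by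
    intro τ hτ x
    have h3 := hmem τ hτ
    have h4 := Pool.Agent.H15.AV.mass_const (Q := boltzQ γ b) hf hI (hinT τ h3)
    have h5 := (abs_le.1 ((late_mdT_nn (f 0) (mx a k u)).trans hι1)).2
    have h6 := hre (f τ) (hsl τ h3) (by rw [h4]; linarith)
    have h7 : K₁ * Real.sqrt (RE a k u (f τ)) ≤ K₁ * Real.sqrt η₁ :=
      mul_le_mul_of_nonneg_left (Real.sqrt_le_sqrt (hRE τ hτ)) hK₁
    have h8 := hl1x κ (f τ) hκ.le (hsl τ h3) (hN τ (hin τ h3)) x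
    have h9 : κ * C₁ ≤ κ₃ * C₁ := mul_le_mul_of_nonneg_right hκa hC₁
    linarith
  have hr1' : (1 : ℝ) ≤ r := hr.1
  have hrL : r ≤ L := hr.2
  have e1 : r + 1 - 1 = r := by ring
  have e2 : r + 1 + 1 = r + 2 := by ring
  have hlow' := hlow T f hf (r + 1) (by linarith) (by linarith)
    (fun t ht => by
      rw [e1, e2] at ht
      exact hD t (hin t (hmem t ht)))
    (fun t ht x => by
      rw [e1, e2] at ht
      exact (hL1 t ht x).trans he1)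
  have hfin := hsup T f hf (r + 1) (by linarith) (by linarith)
    (fun t ht => by
      have ht' : t ∈ Icc r (r + 2) := ⟨by linarith [ht.1], by linarith [ht.2]⟩
      exact hD t (hin t (hmem t ht')))
    hlow'
    (fun t ht x => by
      have ht' : t ∈ Icc r (r + 2) := ⟨by linarith [ht.1], by linarith [ht.2]⟩
      exact (hL1 t ht' x).trans he2)
  intro x v
  have h3 := hfin x v
  rw [e2] at h3
  refine h3.trans ?_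
  calc ε' * Wp (d + 10) v ≤ ε' * 1 := mul_le_mul_of_nonneg_left (Wp_le_one _ _) hε'.le
    _ = ε' := mul_one _

end Pool.Agent.H37.GH
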