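import Pool.Agent.H37.GH.Sli
import Pool.Agent.H37.GH.Av
import Pool.Agent.H48.PI.MaxN

/-!
# Module NSup: bounds independent of time for nearly homogeneous solutions

`γ = 1 + a`. `max_sl` (private, from `max_high` of H48/PI/MaxN with `E = 0`, `DE = 0`, `m = 0`, exactly as at the end of `hom_sup` in H48/CV/HomB.lean): if for all `t, x` the slice `g = f t x` has `m' ≤ ∫ chi R₂ bet C₂ (g)` and tail integral `≤ ε` (`ε` of `sli`), then `f t x v (1+nsq v)^p ≤ max N₁ A`, `A` = bound of `f 0` (from `B (2p)`: `HomB_dec`).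
`M` with `GB M (f 0)` for all `f 0` with constants `B` (mass, energy, entropy `≤ M`: as in `hydro_of_U`, H48/PI/HydU, integrate over `x`), `GB M (f t)` by `glob_bounds`, total mass `≥ m` by `mass_const`.
STEP 1, `p = d + 10`: `F = f t`; `mass_gb M hm` (H48/PV/VarA) and `gb_small M` (H48/PG/LocG, parameter `max a 0 < 1`) for `fun _ => av F` (`av_fs`, `av_gb`, `av_mass` with `φ = 1`; `gb` unfolds to `chi · bet`; `ν`-integrals of functions of `q.1` are `v`-integrals, `HomB_nu` in HomB): `m/2 ≤ ∫ chi R₂ bet C₂ (av F)`, tail of `av F` `≤ ε/2` (`ε` of `sli` with `m/4`). Since `|bet C r - bet C r'| ≤ |r - r'|` (`r, r' ≥ 0`), `chi ≤ 1`, and `|F x - av F| ≤ κ₁ Wp (d+10)` (`av_nh`): the slices have `≥ m/2 - κ₁ I ≥ m/4` and tail `≤ ε/2 + 2 κ₁ I₂ ≤ ε` (`I = ∫ Wp (d+10)`, `I₂ = ∫ Wp (d+10) jb²`), for `κ₁` small.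
 So `f t x v ≤ A₁ Wp (d+10) v`. Mass density `∫ f t x v dv ≥ ∫ av F - κ₁ I ≥ m - m/2`.
STEP 2, all `p ≥ d + 10`: `mass_gb`, `gb_small` for the constant family `fun _ => f t x` itself (`FS` trivial, `GB M'` from `A₁ Wp (d+10)`, mass `≥ m/2`), `sli`, `max_sl`. Finally `(1+‖v‖)^N f ≤ 2^N f (1+nsq v)^N`-type bound (`hom_UB`): `U N = 2^N A_(N+d+10)`.
-/

set_option autoImplicit false

open MeasureTheory Set Filter Topology Pool.Agent.H25.Kin Pool.Agent.H48.PL Pool.Agent.H48.PI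
open Pool.Agent.H82.BK Pool.Agent.H82.CM Pool.Agent.H48.PR

namespace Pool.Agent.H37.GH

variable {d : ℕ} {s γ C Ca cb : ℝ} {b : ℝ → ℝ}

section Aux

open Pool.Agent.H15.AV (Slice sol_slice)

/-- integral over the phase space of a function of the velocity -/
private lemma NSup_nu (φ : Vec d → ℝ) : ∫ q, φ q.1 ∂(nu d) = ∫ v, φ v := by
  unfold nu
  rw [integral_fun_fst]
  simp [Measure.real, muD_univ]

private lemma NSup_Wint {q : ℕ} (hq : d + 1 ≤ 2 * q) : Integrable (Wp q : Vec d → ℝ) := by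
  refine Integrable.mono' ((integrable_wt (d := d)).const_mul ((2 : ℝ) ^ q))
    (Wp_cont q).aestronglyMeasurable (Eventually.of_forall fun v => ?_)
  have hn := norm_nonneg v
  have h1 : (1 + ‖v‖) ^ 2 ≤ 2 * (1 + nsq v) := by
    have := norm_sq_le_sq v
    nlinarith [sq_nonneg (1 - ‖v‖)]
  have h2 : (1 + ‖v‖) ^ (d + 1) ≤ 2 ^ q * (1 + nsq v) ^ q := by
    calc (1 + ‖v‖) ^ (d + 1) ≤ (1 + ‖v‖) ^ (2 * q) := pow_le_pow_right₀ (by linarith) hq
      _ = ((1 + ‖v‖) ^ 2) ^ q := pow_mul _ _ _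
      _ ≤ (2 * (1 + nsq v)) ^ q := pow_le_pow_left₀ (by positivity) h1 q
      _ = 2 ^ q * (1 + nsq v) ^ q := mul_pow _ _ _
  have h3 : 0 < (1 + nsq v) ^ q := by
    have := sq_nonneg' v
    positivity
  rw [Real.norm_of_nonneg (Wp_pos q v).le]
  unfold Wp wt
  rw [← div_eq_mul_inv, inv_eq_one_div, div_le_div_iff₀ h3 (by positivity), one_mul]
  exact h2

private lemma NSup_W (p : ℕ) (v : Vec d) : Wp (p + 1) v * (1 + nsq v) = Wp p v := by
  have h := sq_nonneg' v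
  unfold Wp
  rw [pow_succ, mul_inv, mul_assoc, inv_mul_cancel₀ (by positivity), mul_one]

private lemma NSup_Wle (p : ℕ) (v : Vec d) : Wp (p + 1) v ≤ Wp p v := by
  have h := sq_nonneg' v
  have h2 := Wp_pos (p + 1) v
  have h3 := NSup_W p v
  nlinarith

/-- global bounds from a pointwise bound -/
private lemma NSup_GB (A : ℝ) : ∃ M : ℝ, ∀ F : Vec d → Vec d → ℝ, (∀ x v, 0 ≤ F x v) →
    (∀ x v, F x v ≤ A * Wp (d + 10) v) → GB M F := by
  obtain ⟨W, hW⟩ : ∃ W : ℝ, W = ∫ v : Vec d, Wp (d + 9) v := ⟨_, rfl⟩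
  have hi : Integrable (Wp (d + 9) : Vec d → ℝ) := NSup_Wint (by omega)
  have hW0 : 0 ≤ W := by
    rw [hW]
    exact integral_nonneg fun v => (Wp_pos _ v).le
  have hA0 : 0 ≤ |A| := abs_nonneg A
  have hin : ∀ c : ℝ, Integrable (fun q : Vec d × Vec d => c * Wp (d + 9) q.1) (nu d) := fun c =>
    (hi.comp_fst (muD d)).const_mul c
  have hint : ∀ c : ℝ, ∫ q : Vec d × Vec d, c * Wp (d + 9) q.1 ∂(nu d) = c * W := fun c => by
    rw [NSup_nu (fun v => c * Wp (d + 9) v), integral_const_mul, hW]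
  refine ⟨|A| * W * (1 + |A|), fun F h0 hF => ?_⟩
  have hF' : ∀ x v, F x v ≤ |A| * Wp (d + 10) v := fun x v =>
    (hF x v).trans (mul_le_mul_of_nonneg_right (le_abs_self A) (Wp_pos _ v).le)
  have hF9 : ∀ x v, F x v ≤ |A| * Wp (d + 9) v := fun x v =>
    (hF' x v).trans (mul_le_mul_of_nonneg_left (NSup_Wle (d + 9) v) hA0)
  have hAW : 0 ≤ |A| * W := mul_nonneg hA0 hW0
  refine ⟨?_, ?_, ?_⟩
  · calc ∫ q, F q.2 q.1 ∂(nu d) ≤ ∫ q : Vec d × Vec d, |A| * Wp (d + 9) q.1 ∂(nu d) :=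
          integral_mono_of_nonneg (Eventually.of_forall fun q => h0 _ _) (hin _)
            (Eventually.of_forall fun q => hF9 _ _)
      _ = |A| * W := hint _
      _ ≤ _ := by nlinarith [mul_nonneg hAW hA0]
  · calc ∫ q, F q.2 q.1 * nsq q.1 ∂(nu d) ≤ ∫ q : Vec d × Vec d, |A| * Wp (d + 9) q.1 ∂(nu d) :=
          integral_mono_of_nonneg (Eventually.of_forall fun q => mul_nonneg (h0 _ _) (sq_nonneg' _)) (hin _)
            (Eventually.of_forall fun q => by
              have h1 := sq_nonneg' q.1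
              have h2 : F q.2 q.1 * nsq q.1 ≤ |A| * Wp (d + 10) q.1 * (1 + nsq q.1) :=
                mul_le_mul (hF' _ _) (by linarith) h1 (mul_nonneg hA0 (Wp_pos _ _).le)
              have h3 := NSup_W (d + 9) q.1
              calc F q.2 q.1 * nsq q.1 ≤ |A| * (Wp (d + 10) q.1 * (1 + nsq q.1)) := by
                    rw [← mul_assoc]; exact h2
                _ = |A| * Wp (d + 9) q.1 := by rw [h3])
      _ = |A| * W := hint _
      _ ≤ _ := by nlinarith [mul_nonneg hAW hA0]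
  · have hpt : ∀ q : Vec d × Vec d, F q.2 q.1 * Real.log (F q.2 q.1) ≤ |A| * |A| * Wp (d + 9) q.1 := by
      intro q
      have h1 := h0 q.2 q.1
      have h2 : Real.log (F q.2 q.1) ≤ |A| := by
        refine (Real.log_le_self h1).trans ((hF' _ _).trans ?_)
        have := mul_le_mul_of_nonneg_left (Wp_le_one (d + 10) q.1) hA0
        rwa [mul_one] at this
      calc F q.2 q.1 * Real.log (F q.2 q.1) ≤ F q.2 q.1 * |A| := mul_le_mul_of_nonneg_left h2 h1
        _ ≤ |A| * Wp (d + 9) q.1 * |A| := mul_le_mul_of_nonneg_right (hF9 _ _) hA0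
        _ = _ := by ring
    by_cases hI : Integrable (fun q : Vec d × Vec d => F q.2 q.1 * Real.log (F q.2 q.1)) (nu d)
    · calc ∫ q, F q.2 q.1 * Real.log (F q.2 q.1) ∂(nu d)
          ≤ ∫ q : Vec d × Vec d, |A| * |A| * Wp (d + 9) q.1 ∂(nu d) := integral_mono hI (hin _) hpt
        _ = |A| * |A| * W := hint _
        _ ≤ _ := by nlinarith
    · rw [integral_undef hI]
      positivity

/-- decay in the weights `Wp` -/
private lemma NSup_dec {B : ℕ → ℝ} {F : Vec d → Vec d → ℝ} (h0 : ∀ x v, 0 ≤ F x v) (hF : DC B F) (p : ℕ) (x v : Vec d) :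
    F x v * (1 + nsq v) ^ p ≤ ((d : ℝ) + 1) ^ p * |B (2 * p)| := by
  have h1 := one_add_sq_le v
  have h2 : 0 ≤ 1 + nsq v := by linarith [sq_nonneg' v]
  calc F x v * (1 + nsq v) ^ p ≤ F x v * (((d : ℝ) + 1) * (1 + ‖v‖) ^ 2) ^ p :=
        mul_le_mul_of_nonneg_left (pow_le_pow_left₀ h2 h1 p) (h0 x v)
    _ = ((d : ℝ) + 1) ^ p * ((1 + ‖v‖) ^ (2 * p) * F x v) := by rw [mul_pow, ← pow_mul]; ring
    _ ≤ _ := mul_le_mul_of_nonneg_left ((hF (2 * p) x v).trans (le_abs_self _)) (by positivity)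

private lemma NSup_toW {g : ℝ} {A : ℝ} {p : ℕ} {v : Vec d} (h : g * (1 + nsq v) ^ p ≤ A) : g ≤ A * Wp p v := by
  have h6 : 0 < (1 + nsq v) ^ p := by
    have := sq_nonneg' v
    positivity
  rw [Wp, ← div_eq_mul_inv, le_div_iff₀ h6]
  exact h

private lemma NSup_bet {C : ℝ} (hC : 0 < C) {r r' : ℝ} (hr : 0 ≤ r) (hr' : 0 ≤ r') :
    |bet C r - bet C r'| ≤ |r - r'| := by
  have e : bet C r - bet C r' = C ^ 2 / ((C + r) * (C + r')) * (r - r') := by
    unfold bet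
    have h1 : C + r ≠ 0 := by positivity
    have h2 : C + r' ≠ 0 := by positivity
    field_simp
    ring
  have h3 : 0 ≤ C ^ 2 / ((C + r) * (C + r')) := by positivity
  have h4 : C ^ 2 / ((C + r) * (C + r')) ≤ 1 := by
    rw [div_le_one (by positivity)]
    nlinarith [mul_nonneg hr hr', mul_nonneg hC.le hr, mul_nonneg hC.le hr']
  rw [e, abs_mul, abs_of_nonneg h3]
  nlinarith [abs_nonneg (r - r')]

private lemma NSup_betM {C : ℝ} : Measurable (bet C) := by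
  unfold bet
  exact (measurable_const.mul measurable_id).div (measurable_const.add measurable_id)

/-- constant families -/
private lemma NSup_fs (e : Fin d) {g : Vec d → ℝ} (hg0 : ∀ v, 0 ≤ g v) (hgc : Continuous g)
    (hgd : ∀ N : ℕ, ∃ C, ∀ v, (1 + ‖v‖) ^ N * g v ≤ C) : FS e (fun _ => g) (fun _ => g) := by
  have hc : Continuous fun p : Vec d × Vec d => (fun _ : Vec d => g) p.1 p.2 := hgc.comp continuous_snd
  have hr : RX (fun _ : Vec d => g) := fun N => by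
    obtain ⟨C, hC⟩ := hgd N
    exact ⟨C, fun _ v => by rw [abs_of_nonneg (hg0 v)]; exact hC v⟩
  exact ⟨fun _ v => hg0 v, fun _ _ _ => rfl, fun _ _ _ => rfl, fun _ _ _ _ => rfl, fun _ _ _ _ => rfl, hc, hc, hr, hr⟩

/-- the maximum principle -/
private lemma NSup_max {a : ℝ} {T : ℝ} {f : ℝ → Vec d → Vec d → ℝ} (hf : IsBoltzmannSol (1 + a) b T f) (p : ℕ)
    {N₁ A : ℝ} (hQ : ∀ t ∈ Ioo 0 T, ∀ x v, N₁ ≤ f t x v * (1 + nsq v) ^ p →
      (∀ u, f t x u * (1 + nsq u) ^ p ≤ f t x v * (1 + nsq v) ^ p) → boltzQ (1 + a) b (f t x) v ≤ 0)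
    (hA : ∀ x v, f 0 x v * (1 + nsq v) ^ p ≤ A) :
    ∀ t ∈ Ico 0 T, ∀ x v, f t x v * (1 + nsq v) ^ p ≤ max N₁ A := by
  have hf' : IsClassicalSol T (fun t x => boltzQ (1 + a) b (f t x)) f := hf
  have h3 := Pool.Agent.H48.PI.max_high (E := fun _ _ _ => 0) (DE := fun _ _ _ => 0) (m := fun _ => 0) (A₁ := N₁) hf' p
    (by
      have : ContinuousOn (fun _ : ℝ × Vec d × Vec d => (0 : ℝ)) (Ico 0 T ×ˢ univ) := continuousOn_const
      exact this)
    (fun _ _ _ _ _ => rfl) (fun T₁ _ => ⟨0, fun t _ x v => by simp⟩)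
    (fun t _ x v => hasDerivAt_const _ _) integrableOn_zero (fun _ _ => le_rfl)
    (fun t ht x v h1 h2 => by
      simp only [neg_zero, Real.exp_zero, mul_one] at h1 h2
      have h4 := hQ t ht x v h1 h2
      simpa using h4)
    (le_max_left N₁ A)
    (fun x v => by
      simp only [neg_zero, Real.exp_zero, mul_one]
      exact (hA x v).trans (le_max_right _ _))
  intro t ht x v
  simpa using h3 t ht x v

/-- mass and tail of one function of the velocity with given global bounds -/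
private lemma NSup_par {a : ℝ} (ha1 : a < 1) (hd : 2 ≤ d) (M : ℝ) {m : ℝ} (hm : 0 < m) :
    ∃ R₂ C₂ : ℝ, 1 ≤ R₂ ∧ 1 ≤ C₂ ∧ ∀ ε > 0, ∃ R C₀ : ℝ, R₂ ≤ R ∧ C₂ ≤ C₀ ∧ ∀ g : Vec d → ℝ, (∀ v, 0 ≤ g v) →
      Continuous g → (∀ N : ℕ, ∃ C, ∀ v, (1 + ‖v‖) ^ N * g v ≤ C) → GB M (fun _ : Vec d => g) →
      m ≤ ∫ v, g v → m / 2 ≤ ∫ w, chi R₂ w * bet C₂ (g w) ∧
        ∫ w, (g w - chi R w * bet C₀ (g w)) * jb w ^ (1 + max a 0) ≤ ε := by
  obtain ⟨e, -⟩ : ∃ e : Fin d, e = ⟨0, by omega⟩ := ⟨_, rfl⟩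
  obtain ⟨R₂, C₂, hR₂, hC₂, hmass⟩ := Pool.Agent.H48.PV.mass_gb (d := d) M hm
  refine ⟨R₂, C₂, hR₂, hC₂, fun ε hε => ?_⟩
  obtain ⟨R₀, hR₀, hgb⟩ := Pool.Agent.H48.PG.gb_small (d := d) (a := max a 0) M (le_max_right _ _)
    (max_lt ha1 one_pos) hε
  obtain ⟨C₁, hC₁, hgb⟩ := hgb (max R₀ R₂) (le_max_left _ _)
  have hgb := hgb (max C₁ C₂) (le_max_left _ _)
  refine ⟨max R₀ R₂, max C₁ C₂, le_max_right _ _, le_max_right _ _, fun g hg0 hgc hgd hG hgm => ⟨?_, ?_⟩⟩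
  · have h1 := hmass e _ _ (NSup_fs e hg0 hgc hgd) hG (by rw [NSup_nu g]; exact hgm)
    refine h1.trans (le_of_eq ?_)
    rw [← NSup_nu]
    rfl
  · have h1 := hgb e _ _ (NSup_fs e hg0 hgc hgd) hG
    refine le_trans (le_of_eq ?_) h1
    rw [← NSup_nu]
    rfl

/-- second step: all weights -/
private lemma NSup_two {a : ℝ} (HL : HypL d (1 + a) s b C Ca cb) (ha : -1 ≤ a) (ha1 : a < 1) (hs1 : 2 * s < 1)
    (B : ℕ → ℝ) (A₁ : ℝ) {m : ℝ} (hm : 0 < m) {p : ℕ} (hp : d + 10 ≤ p) :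
    ∃ A : ℝ, ∀ (T : ℝ) (f : ℝ → Vec d → Vec d → ℝ), IsBoltzmannSol (1 + a) b T f → DC B (f 0) →
      (∀ t ∈ Ico 0 T, ∀ x v, f t x v ≤ A₁ * Wp (d + 10) v) → (∀ t ∈ Ico 0 T, ∀ x, m ≤ ∫ v, f t x v) →
      ∀ t ∈ Ico 0 T, ∀ x v, f t x v * (1 + nsq v) ^ p ≤ A := by
  have hp' : (d : ℝ) + (1 + a) + 4 ≤ 2 * p := by
    have h1 : (d : ℝ) + 10 ≤ p := by exact_mod_cast hp
    have h2 : (0 : ℝ) ≤ d := Nat.cast_nonneg _
    linarith
  obtain ⟨M, hM⟩ := NSup_GB (d := d) A₁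
  obtain ⟨R₂, C₂, hR₂, hC₂, hpar⟩ := NSup_par (d := d) ha1 HL.H.hd M hm
  obtain ⟨ε, hε, hsl⟩ := sli HL ha ha1 hs1 hp' (half_pos hm) hR₂ (by linarith : 0 < C₂)
  obtain ⟨R, C₀, hR, hC₀, hpar⟩ := hpar ε hε
  obtain ⟨N₁, hN₁, hsl⟩ := hsl R C₀ hR hC₀
  refine ⟨max N₁ (((d : ℝ) + 1) ^ p * |B (2 * p)|), fun T f hf hB hA hmass t ht => ?_⟩
  have hf' : IsClassicalSol T (fun t x => boltzQ (1 + a) b (f t x)) f := hf
  have h0T : (0 : ℝ) ∈ Ico 0 T := ⟨le_rfl, lt_of_le_of_lt ht.1 ht.2⟩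
  refine NSup_max hf p ?_ (fun x v => NSup_dec (fun x v => hf.nonneg 0 h0T x v) hB p x v) t ht
  intro r hr x v h1 h2
  have hr' : r ∈ Ico 0 T := ⟨hr.1.le, hr.2⟩
  have hN := IsClassicalSol.nice hf' hr x
  have hS := sol_slice hf' hr'
  obtain ⟨h3, h4⟩ := hpar (f r x) (fun v => hf.nonneg r hr' x v) hN.cont
    (fun N => (hS.decay N).imp fun C hC v => hC x v)
    (hM _ (fun _ v => hf.nonneg r hr' x v) fun _ v => hA r hr' x v) (hmass r hr' x)
  exact hsl (f r x) hN (fun v => hf.nonneg r hr' x v) h3 h4 v h1 h2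

/-- first step: the weight `Wp (d+10)` and the mass density -/
private lemma NSup_one {a : ℝ} (HL : HypL d (1 + a) s b C Ca cb) (ha : -1 ≤ a) (ha1 : a < 1) (hs1 : 2 * s < 1)
    (B : ℕ → ℝ) {m : ℝ} (hm : 0 < m) :
    ∃ κ₁ > 0, ∃ A₁ : ℝ, ∀ (T : ℝ) (f : ℝ → Vec d → Vec d → ℝ), IsBoltzmannSol (1 + a) b T f → DC B (f 0) →
      m ≤ ∫ q, f 0 q.2 q.1 ∂(nu d) → (∀ t ∈ Ico 0 T, NH κ₁ (f t)) →
      (∀ t ∈ Ico 0 T, ∀ x v, f t x v ≤ A₁ * Wp (d + 10) v) ∧ (∀ t ∈ Ico 0 T, ∀ x, m / 2 ≤ ∫ v, f t x v) := by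
  have hp' : (d : ℝ) + (1 + a) + 4 ≤ 2 * ((d + 10 : ℕ) : ℝ) := by
    push_cast
    have h2 : (0 : ℝ) ≤ d := Nat.cast_nonneg _
    linarith
  obtain ⟨M, hM⟩ := NSup_GB (d := d) (((d : ℝ) + 1) ^ (d + 10) * |B (2 * (d + 10))|)
  obtain ⟨R₂, C₂, hR₂, hC₂, hpar⟩ := NSup_par (d := d) ha1 HL.H.hd M hm
  have hC₂0 : 0 < C₂ := by linarith
  obtain ⟨ε, hε, hsl⟩ := sli HL ha ha1 hs1 hp' (show 0 < m / 4 by positivity) hR₂ hC₂0
  obtain ⟨R, C₀, hR, hC₀, hpar⟩ := hpar (ε / 2) (half_pos hε)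
  have hC₀0 : 0 < C₀ := by linarith
  obtain ⟨N₁, hN₁, hsl⟩ := hsl R C₀ hR hC₀
  have i10 : Integrable (Wp (d + 10) : Vec d → ℝ) := NSup_Wint (by omega)
  have i9 : Integrable (Wp (d + 9) : Vec d → ℝ) := NSup_Wint (by omega)
  obtain ⟨I, hI⟩ : ∃ I : ℝ, I = ∫ v : Vec d, Wp (d + 9) v := ⟨_, rfl⟩
  have hI0 : 0 ≤ I := by
    rw [hI]
    exact integral_nonneg fun v => (Wp_pos _ v).le
  have hI10 : ∫ v : Vec d, Wp (d + 10) v ≤ I := by
    rw [hI]
    exact integral_mono i10 i9 fun v => NSup_Wle (d + 9) v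
  obtain ⟨κ, hκ⟩ : ∃ κ : ℝ, κ = min (m / (4 * (I + 1))) (ε / (4 * (I + 1))) := ⟨_, rfl⟩
  have hκ0 : 0 < κ := by
    rw [hκ]
    exact lt_min (by positivity) (by positivity)
  have hκm : κ * I ≤ m / 4 := by
    have h1 : κ ≤ m / (4 * (I + 1)) := by rw [hκ]; exact min_le_left _ _
    calc κ * I ≤ m / (4 * (I + 1)) * (I + 1) := mul_le_mul h1 (by linarith) hI0 (by positivity)
      _ = m / 4 := by field_simp
  have hκε : 2 * (κ * I) ≤ ε / 2 := by
    have h1 : κ ≤ ε / (4 * (I + 1)) := by rw [hκ]; exact min_le_right _ _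
    have h2 : κ * I ≤ ε / 4 := by
      calc κ * I ≤ ε / (4 * (I + 1)) * (I + 1) := mul_le_mul h1 (by linarith) hI0 (by positivity)
        _ = ε / 4 := by field_simp
    linarith
  refine ⟨κ, hκ0, max N₁ (((d : ℝ) + 1) ^ (d + 10) * |B (2 * (d + 10))|), fun T f hf hB hm0 hNH => ?_⟩
  have hf' : IsClassicalSol T (fun t x => boltzQ (1 + a) b (f t x)) f := hf
  -- information on the average
  have key : ∀ t ∈ Ico 0 T, Slice (f t) ∧ GB M (f t) ∧ m ≤ ∫ v, av (f t) v := by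
    intro t ht
    have h0T : (0 : ℝ) ∈ Ico 0 T := ⟨le_rfl, lt_of_le_of_lt ht.1 ht.2⟩
    have hS := sol_slice hf' ht
    have hI := boltz_HasInvariants HL.H hf
    refine ⟨hS, glob_bounds HL.H hf (hM _ (fun x v => hf.nonneg 0 h0T x v) fun x v =>
      NSup_toW (NSup_dec (fun x v => hf.nonneg 0 h0T x v) hB (d + 10) x v)) ht, ?_⟩
    have h1 := av_mass hS (φ := fun _ => (1 : ℝ)) continuous_const ⟨1, 0, fun v => by simp⟩
    simp only [mul_one] at h1
    rw [h1, Pool.Agent.H15.AV.mass_const (Q := boltzQ (1 + a) b) hf hI ht]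
    exact hm0
  have hmeasjb : Measurable fun w : Vec d => jb w ^ (1 + max a 0) := jb_cont.measurable.pow_const _
  have hjb : ∀ w : Vec d, Wp (d + 10) w * jb w ^ (1 + max a 0) ≤ Wp (d + 9) w := by
    intro w
    have h1 : jb w ^ (1 + max a 0) ≤ jb w ^ (2 : ℝ) := by
      refine Real.rpow_le_rpow_of_exponent_le (one_le_jb w) ?_
      have := max_lt ha1 (one_pos (α := ℝ))
      linarith
    rw [Real.rpow_two, jb_sq] at h1
    rw [← NSup_W (d + 9) w]
    exact mul_le_mul_of_nonneg_left h1 (Wp_pos _ w).le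
  constructor
  · intro t ht
    have h0T : (0 : ℝ) ∈ Ico 0 T := ⟨le_rfl, lt_of_le_of_lt ht.1 ht.2⟩
    have h5 := NSup_max hf (d + 10) (N₁ := N₁) ?_
      (fun x v => NSup_dec (fun x v => hf.nonneg 0 h0T x v) hB (d + 10) x v) t ht
    · intro x v
      exact NSup_toW (h5 x v)
    intro r hr x v h1 h2
    have hr' : r ∈ Ico 0 T := ⟨hr.1.le, hr.2⟩
    have hN := IsClassicalSol.nice hf' hr x
    have hg0 : ∀ v, 0 ≤ f r x v := fun v => hf.nonneg r hr' x v
    obtain ⟨hS, hG, hmA⟩ := key r hr'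
    have hA0 := av_nn hS
    have hAc := av_cont hS
    have hAd : ∀ N : ℕ, ∃ C, ∀ v, (1 + ‖v‖) ^ N * av (f r) v ≤ C := by
      intro N
      obtain ⟨C, hC⟩ := (av_fs (⟨0, by have := HL.H.hd; omega⟩ : Fin d) hS).decF N
      refine ⟨C, fun v => ?_⟩
      have h6 := hC 0 v
      rwa [abs_of_nonneg (hA0 v)] at h6
    obtain ⟨h3, h4⟩ := hpar (av (f r)) hA0 hAc hAd (av_gb hS hG) hmA
    have hd1 : ∀ v, |f r x v - av (f r) v| ≤ κ * Wp (d + 10) v := fun v => av_nh hS (hNH r hr') x v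
    have hgi : Integrable (f r x) := hN.rd.integrable hN.cont.aestronglyMeasurable
    have hAi : Integrable (av (f r)) := by
      refine (hgi.add (i10.const_mul κ)).mono' hAc.aestronglyMeasurable (Eventually.of_forall fun v => ?_)
      rw [Real.norm_of_nonneg (hA0 v)]
      have := (abs_le.1 (hd1 v)).1
      show av (f r) v ≤ f r x v + κ * Wp (d + 10) v
      linarith
    refine hsl (f r x) hN hg0 ?_ ?_ v h1 h2
    · -- the mass of the bounded part
      have m1 : Measurable fun w => chi R₂ w * bet C₂ (f r x w) :=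
        (chi_cont _).measurable.mul (NSup_betM.comp hN.cont.measurable)
      have m2 : Measurable fun w => chi R₂ w * bet C₂ (av (f r) w) :=
        (chi_cont _).measurable.mul (NSup_betM.comp hAc.measurable)
      have j1 : Integrable fun w => chi R₂ w * bet C₂ (f r x w) := by
        refine hgi.mono' m1.aestronglyMeasurable (Eventually.of_forall fun w => ?_)
        rw [Real.norm_of_nonneg (mul_nonneg (chi_nonneg _ _) (bet_nonneg hC₂0 (hg0 w)))]
        calc chi R₂ w * bet C₂ (f r x w) ≤ 1 * f r x w :=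
              mul_le_mul (chi_le_one _ _) (bet_le hC₂0 (hg0 w)) (bet_nonneg hC₂0 (hg0 w)) zero_le_one
          _ = _ := one_mul _
      have j2 : Integrable fun w => chi R₂ w * bet C₂ (av (f r) w) := by
        refine hAi.mono' m2.aestronglyMeasurable (Eventually.of_forall fun w => ?_)
        rw [Real.norm_of_nonneg (mul_nonneg (chi_nonneg _ _) (bet_nonneg hC₂0 (hA0 w)))]
        calc chi R₂ w * bet C₂ (av (f r) w) ≤ 1 * av (f r) w :=
              mul_le_mul (chi_le_one _ _) (bet_le hC₂0 (hA0 w)) (bet_nonneg hC₂0 (hA0 w)) zero_le_one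
          _ = _ := one_mul _
      have j3 : ∫ w, chi R₂ w * bet C₂ (av (f r) w) ≤
          (∫ w, chi R₂ w * bet C₂ (f r x w)) + ∫ w : Vec d, κ * Wp (d + 10) w := by
        rw [← integral_add j1 (i10.const_mul κ)]
        refine integral_mono j2 (j1.add (i10.const_mul κ)) fun w => ?_
        have h7 := (abs_le.1 (NSup_bet hC₂0 (hg0 w) (hA0 w))).1
        have h8 := hd1 w
        have h9 : chi R₂ w * (bet C₂ (av (f r) w) - bet C₂ (f r x w)) ≤ 1 * (κ * Wp (d + 10) w) := by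
          refine mul_le_mul_of_nonneg (chi_le_one _ _) (by linarith) (chi_nonneg _ _) ?_
          exact mul_nonneg hκ0.le (Wp_pos _ w).le
        show chi R₂ w * bet C₂ (av (f r) w) ≤ chi R₂ w * bet C₂ (f r x w) + κ * Wp (d + 10) w
        linarith
      rw [integral_const_mul] at j3
      have j4 : κ * ∫ v : Vec d, Wp (d + 10) v ≤ κ * I := mul_le_mul_of_nonneg_left hI10 hκ0.le
      linarith
    · -- the tail
      have hj0 : ∀ w : Vec d, 0 ≤ jb w ^ (1 + max a 0) := fun w => Real.rpow_nonneg (jb_pos w).le _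
      have m1 : Measurable fun w => (f r x w - chi R w * bet C₀ (f r x w)) * jb w ^ (1 + max a 0) :=
        (hN.cont.measurable.sub ((chi_cont _).measurable.mul (NSup_betM.comp hN.cont.measurable))).mul hmeasjb
      have m2 : Measurable fun w => (av (f r) w - chi R w * bet C₀ (av (f r) w)) * jb w ^ (1 + max a 0) :=
        (hAc.measurable.sub ((chi_cont _).measurable.mul (NSup_betM.comp hAc.measurable))).mul hmeasjb
      have hle : ∀ {g : ℝ}, 0 ≤ g → ∀ w : Vec d, 0 ≤ g - chi R w * bet C₀ g ∧ g - chi R w * bet C₀ g ≤ g := by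
        intro g hg w
        have q1 := bet_nonneg hC₀0 hg
        have q2 := bet_le hC₀0 hg
        have q3 := chi_nonneg R w
        have q4 := chi_le_one R w
        have q5 : chi R w * bet C₀ g ≤ 1 * g := mul_le_mul q4 q2 q1 zero_le_one
        have q6 : 0 ≤ chi R w * bet C₀ g := mul_nonneg q3 q1
        constructor <;> linarith
      have hPG : PG fun v : Vec d => jb v ^ (1 + max a 0) := PG_jb
      have k1 : Integrable fun w => f r x w * jb w ^ (1 + max a 0) :=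
        (hN.rd.mul_PG hPG).integrable (hN.cont.measurable.mul hmeasjb).aestronglyMeasurable
      have kW : Integrable fun w : Vec d => κ * Wp (d + 9) w := i9.const_mul κ
      have j1 : Integrable fun w => (f r x w - chi R w * bet C₀ (f r x w)) * jb w ^ (1 + max a 0) := by
        refine k1.mono' m1.aestronglyMeasurable (Eventually.of_forall fun w => ?_)
        rw [Real.norm_of_nonneg (mul_nonneg (hle (hg0 w) w).1 (hj0 w))]
        exact mul_le_mul_of_nonneg_right (hle (hg0 w) w).2 (hj0 w)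
      have j2 : Integrable fun w => (av (f r) w - chi R w * bet C₀ (av (f r) w)) * jb w ^ (1 + max a 0) := by
        refine (k1.add kW).mono' m2.aestronglyMeasurable (Eventually.of_forall fun w => ?_)
        rw [Real.norm_of_nonneg (mul_nonneg (hle (hA0 w) w).1 (hj0 w))]
        have q1 := mul_le_mul_of_nonneg_right (hle (hA0 w) w).2 (hj0 w)
        have q2 : av (f r) w ≤ f r x w + κ * Wp (d + 10) w := by
          have := (abs_le.1 (hd1 w)).1
          linarith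
        have q3 := mul_le_mul_of_nonneg_right q2 (hj0 w)
        have q4 := mul_le_mul_of_nonneg_left (hjb w) hκ0.le
        show _ ≤ f r x w * jb w ^ (1 + max a 0) + κ * Wp (d + 9) w
        nlinarith
      have j3 : ∫ w, (f r x w - chi R w * bet C₀ (f r x w)) * jb w ^ (1 + max a 0) ≤
          (∫ w, (av (f r) w - chi R w * bet C₀ (av (f r) w)) * jb w ^ (1 + max a 0)) +
            ∫ w : Vec d, 2 * (κ * Wp (d + 9) w) := by
        rw [← integral_add j2 (kW.const_mul 2)]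
        refine integral_mono j1 (j2.add (kW.const_mul 2)) fun w => ?_
        have h7 := (abs_le.1 (NSup_bet hC₀0 (hg0 w) (hA0 w))).1
        have h8 := hd1 w
        have h8' := (abs_le.1 h8).2
        have hκW : 0 ≤ κ * Wp (d + 10) w := mul_nonneg hκ0.le (Wp_pos _ w).le
        have h9 : chi R w * (bet C₀ (av (f r) w) - bet C₀ (f r x w)) ≤ 1 * (κ * Wp (d + 10) w) :=
          mul_le_mul_of_nonneg (chi_le_one _ _) (by linarith) (chi_nonneg _ _) hκW
        have h10 : f r x w - chi R w * bet C₀ (f r x w) ≤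
            (av (f r) w - chi R w * bet C₀ (av (f r) w)) + 2 * (κ * Wp (d + 10) w) := by linarith
        have h11 := mul_le_mul_of_nonneg_right h10 (hj0 w)
        have h12 := mul_le_mul_of_nonneg_left (hjb w) hκ0.le
        show (f r x w - chi R w * bet C₀ (f r x w)) * jb w ^ (1 + max a 0) ≤
          (av (f r) w - chi R w * bet C₀ (av (f r) w)) * jb w ^ (1 + max a 0) + 2 * (κ * Wp (d + 9) w)
        nlinarith
      have j4 : ∫ w : Vec d, 2 * (κ * Wp (d + 9) w) = 2 * (κ * I) := by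
        rw [integral_const_mul, integral_const_mul, hI]
      linarith
  · intro t ht x
    obtain ⟨hS, hG, hmA⟩ := key t ht
    have hA0 := av_nn hS
    have hAc := av_cont hS
    have hd1 : ∀ v, |f t x v - av (f t) v| ≤ κ * Wp (d + 10) v := fun v => av_nh hS (hNH t ht) x v
    have hgc : Continuous (f t x) := hS.cont.comp (continuous_const.prodMk continuous_id)
    have hgi : Integrable (f t x) := by
      refine RD.integrable ?_ hgc.aestronglyMeasurable
      intro N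
      obtain ⟨C, hC⟩ := hS.decay N
      refine ⟨C, fun v => ?_⟩
      rw [Real.norm_of_nonneg (hS.nonneg x v)]
      exact hC x v
    have hAi : Integrable (av (f t)) := by
      refine (hgi.add (i10.const_mul κ)).mono' hAc.aestronglyMeasurable (Eventually.of_forall fun v => ?_)
      rw [Real.norm_of_nonneg (hA0 v)]
      have := (abs_le.1 (hd1 v)).1
      show av (f t) v ≤ f t x v + κ * Wp (d + 10) v
      linarith
    have j3 : ∫ w, av (f t) w ≤ (∫ w, f t x w) + ∫ w : Vec d, κ * Wp (d + 10) w := by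
      rw [← integral_add hgi (i10.const_mul κ)]
      refine integral_mono hAi (hgi.add (i10.const_mul κ)) fun w => ?_
      have := (abs_le.1 (hd1 w)).1
      show av (f t) w ≤ f t x w + κ * Wp (d + 10) w
      linarith
    rw [integral_const_mul] at j3
    have j4 : κ * ∫ v : Vec d, Wp (d + 10) v ≤ κ * I := mul_le_mul_of_nonneg_left hI10 hκ0.le
    linarith

end Aux

theorem nsup (HL : HypL d γ s b C Ca cb) (h0 : 0 ≤ γ) (hγ2 : γ < 2) (hs1 : 2 * s < 1) (B : ℕ → ℝ)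
    {m : ℝ} (hm : 0 < m) : ∃ κ₁ > 0, ∃ U : ℕ → ℝ, ∀ (T : ℝ) (f : ℝ → Vec d → Vec d → ℝ),
      IsBoltzmannSol γ b T f → DC B (f 0) → m ≤ ∫ q, f 0 q.2 q.1 ∂(nu d) →
      (∀ t ∈ Ico 0 T, NH κ₁ (f t)) →
      ∀ t ∈ Ico 0 T, DC U (f t) ∧ ∀ x, m / 2 ≤ ∫ v, f t x v := by
  obtain ⟨a, rfl⟩ : ∃ a : ℝ, γ = 1 + a := ⟨γ - 1, by ring⟩
  have ha : -1 ≤ a := by linarith
  have ha1 : a < 1 := by linarith
  obtain ⟨κ, hκ, A₁, h1⟩ := NSup_one HL ha ha1 hs1 B hm
  have key : ∀ N : ℕ, ∃ A : ℝ, ∀ (T : ℝ) (f : ℝ → Vec d → Vec d → ℝ), IsBoltzmannSol (1 + a) b T f → DC B (f 0) →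
      (∀ t ∈ Ico 0 T, ∀ x v, f t x v ≤ A₁ * Wp (d + 10) v) → (∀ t ∈ Ico 0 T, ∀ x, m / 2 ≤ ∫ v, f t x v) →
      ∀ t ∈ Ico 0 T, ∀ x v, f t x v * (1 + nsq v) ^ (N + d + 10) ≤ A := fun N =>
    NSup_two HL ha ha1 hs1 B A₁ (half_pos hm) (by omega)
  choose A hA using key
  refine ⟨κ, hκ, fun N => 2 ^ N * A N, fun T f hf hB hm0 hNH t ht => ?_⟩
  obtain ⟨h2, h3⟩ := h1 T f hf hB hm0 hNH
  refine ⟨fun N x v => ?_, h3 t ht⟩
  have h5 := hA N T f hf hB h2 h3 t ht x v
  have h4 : 0 ≤ f t x v := hf.nonneg t ht x v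
  have hn := norm_nonneg v
  have h6 : 1 + ‖v‖ ≤ 2 * (1 + nsq v) := by
    have := norm_sq_le_sq v
    nlinarith [sq_nonneg (‖v‖ - 1)]
  have h7 : 1 ≤ 1 + nsq v := by linarith [sq_nonneg' v]
  calc (1 + ‖v‖) ^ N * f t x v ≤ (2 * (1 + nsq v)) ^ N * f t x v :=
        mul_le_mul_of_nonneg_right (pow_le_pow_left₀ (by linarith) h6 N) h4
    _ = 2 ^ N * (f t x v * (1 + nsq v) ^ N) := by rw [mul_pow]; ring
    _ ≤ 2 ^ N * (f t x v * (1 + nsq v) ^ (N + d + 10)) := by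
        refine mul_le_mul_of_nonneg_left (mul_le_mul_of_nonneg_left ?_ h4) (by positivity)
        exact pow_le_pow_right₀ h7 (by omega)
    _ ≤ 2 ^ N * A N := mul_le_mul_of_nonneg_left h5 (by positivity)

end Pool.Agent.H37.GH
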