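import Pool.Agent.H37.GH.Defs
import Pool.Agent.H48.PG.LocG
import Pool.Agent.H82.DG.OpD
import Pool.Agent.H48.PV.VarA

/-!
# Module Sli: the collision operator is not positive at a high touching point (one slice)

Model: `HomB_slice` and the private lemmas `HomB_g1, HomB_chi, HomB_bet, HomB_len, HomB_low, HomB_gain` of H48/CV/HomB.lean (copy them; all are slice by slice). `g₁ = chi R · bet C₀ (g)`. `op_wn` (H82/DG/OpD.lean, valid for all `-1 ≤ a`, with `β = 1 > 2s`) instead of `op_d`: `K₀, κ, δ₁`; `e = ⟨0,_⟩`.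
LOSS: the slab `|w_e - v_e| < δ` has `∫ chi R₂ bet C₂ (g) ≤ C₂ (4R₂)^(d-1) 2δ ≤ m/2` for `δ` small, whatever `g` is (`bet C₂ ≤ C₂`, `chi R₂ = 0` for `jb > 2 R₂`), so `∫ len(v-w)^(1+a) g₁ ≥ c jb v^(1+a) m/2`, `c = min(1/2, δ/(4R₂))^(1+a)` (`HomB_low`). GAIN: `(v_e-w_e) PhS ≤ len(v-w)^(1+a) ≤ 4 jb v^(1+a) jb w^(1+a)` (`VPhS_le_len`; `len(v-w) ≤ 2 jb v jb w`, `1+a < 2`), `jb w^(1+a) ≤ jb w^(1 + max a 0)`, so `∫ ≤ 4 jb v^(1+a) ε`. Choose `ε` with `4 K₀ ε ≤ κ c m/2`; `N₁` from `op_wn`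
with `C₀` and radius `2R`. `TouchS δ₁ 1 p g v` with `P = 0` as in `HomB_slice`.
-/

set_option autoImplicit false

open MeasureTheory Set Filter Topology Pool.Agent.H25.Kin Pool.Agent.H48.PL Pool.Agent.H48.PI
open Pool.Agent.H82.BK Pool.Agent.H82.CM Pool.Agent.H48.PR

namespace Pool.Agent.H37.GH

variable {d : ℕ} {s a C Ca cb : ℝ} {b : ℝ → ℝ}

section Aux

open Pool.Agent.H48.PW

/-- the bounded part of a slice -/
private lemma Sli_g1 {g : Vec d → ℝ} (hg : Nice g) (hg0 : ∀ u, 0 ≤ g u) {R C₀ : ℝ} (hR : 1 ≤ R) (hC : 0 < C₀) :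
    Measurable (fun u => chi R u * bet C₀ (g u)) ∧ (∀ u, 0 ≤ chi R u * bet C₀ (g u)) ∧
      (∀ u, chi R u * bet C₀ (g u) ≤ g u) ∧ (∀ u, chi R u * bet C₀ (g u) ≤ C₀) ∧
      ∀ u, 2 * R < jb u → chi R u * bet C₀ (g u) = 0 := by
  have hb0 : ∀ u, 0 ≤ bet C₀ (g u) := fun u => bet_nonneg hC (hg0 u)
  have gb' : ∀ u, chi R u * bet C₀ (g u) ≤ bet C₀ (g u) := fun u => by
    calc chi R u * bet C₀ (g u) ≤ 1 * bet C₀ (g u) :=
          mul_le_mul_of_nonneg_right (chi_le_one _ _) (hb0 u)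
      _ = bet C₀ (g u) := one_mul _
  refine ⟨?_, fun u => mul_nonneg (chi_nonneg _ _) (hb0 u), fun u => (gb' u).trans (bet_le hC (hg0 u)),
    fun u => (gb' u).trans (bet_le_C hC (hg0 u)), fun u hu => ?_⟩
  · have m1 : Measurable (bet C₀) := by
      unfold bet
      exact (measurable_const.mul measurable_id).div (measurable_const.add measurable_id)
    exact (chi_cont _).measurable.mul (m1.comp hg.cont.measurable)
  · rw [chi_eq_zero hR hu.le, zero_mul]

private lemma Sli_chi {R R' : ℝ} (hR : 0 < R) (h : R ≤ R') (w : Vec d) : chi R w ≤ chi R' w := by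
  unfold chi
  have h1 : jb w / R' ≤ jb w / R := div_le_div_of_nonneg_left (jb_pos w).le hR h
  exact max_le_max le_rfl (min_le_min le_rfl (by linarith))

private lemma Sli_bet {C C' : ℝ} (hC : 0 < C) (h : C ≤ C') {r : ℝ} (hr : 0 ≤ r) :
    bet C r ≤ bet C' r := by
  have hC' : 0 < C' := hC.trans_le h
  unfold bet
  rw [div_le_div_iff₀ (by positivity) (by positivity)]
  nlinarith [mul_le_mul_of_nonneg_right h (mul_nonneg hr hr)]

/-- the relative velocity is large away from a slab -/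
private lemma Sli_len {R δ : ℝ} (hR : 1 ≤ R) (hδ : 0 < δ) {e : Fin d} {v w : Vec d} (h1 : jb w ≤ 2 * R)
    (h2 : δ ≤ |w e - v e|) : min (1 / 2) (δ / (4 * R)) * jb v ≤ len (v - w) := by
  have hj := jb_pos v
  rcases le_or_gt (jb v) (4 * R) with h | h
  · have h3 : |w e - v e| ≤ len (v - w) := by
      rw [abs_sub_comm]
      exact abs_coord_le (v - w) e
    calc min (1 / 2) (δ / (4 * R)) * jb v ≤ δ / (4 * R) * (4 * R) :=
          mul_le_mul (min_le_right _ _) h hj.le (by positivity)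
      _ = δ := by field_simp
      _ ≤ len (v - w) := h2.trans h3
  · have h3 := (abs_le.1 (jb_lip v w)).2
    calc min (1 / 2) (δ / (4 * R)) * jb v ≤ 1 / 2 * jb v :=
          mul_le_mul_of_nonneg_right (min_le_left _ _) hj.le
      _ ≤ len (v - w) := by linarith

/-- lower bound of the loss term of the bounded part -/
private lemma Sli_low {r : ℝ} (h0 : 0 ≤ r) (h1 : r ≤ 2) (hd : 2 ≤ d) {g : Vec d → ℝ} (hg : Nice g)
    (hg0 : ∀ u, 0 ≤ g u) {R₂ C₂ R C₀ δ m : ℝ} (hR₂ : 1 ≤ R₂) (hC₂ : 0 < C₂) (hR : R₂ ≤ R) (hC : C₂ ≤ C₀)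
    (hδ : 0 < δ) (e : Fin d) (v : Vec d) (hm : m / 2 ≤ ∫ w, chi R₂ w * bet C₂ (g w))
    (hs : ∫ w in {w : Vec d | |w e - v e| < δ}, chi R₂ w * bet C₂ (g w) ≤ m / 4) :
    min (1 / 2) (δ / (4 * R₂)) ^ r * jb v ^ r * (m / 4) ≤
      ∫ w, len (v - w) ^ r * (chi R w * bet C₀ (g w)) := by
  obtain ⟨m2, p2, l2, c2, z2⟩ := Sli_g1 hg hg0 hR₂ hC₂
  obtain ⟨m1, p1, l1, c1, z1⟩ := Sli_g1 hg hg0 (hR₂.trans hR) (hC₂.trans_le hC)
  obtain ⟨c, hc⟩ : ∃ c : ℝ, c = min (1 / 2) (δ / (4 * R₂)) := ⟨_, rfl⟩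
  have hc0 : 0 < c := by
    rw [hc]
    have : 0 < R₂ := by linarith
    exact lt_min (by norm_num) (by positivity)
  have hS : MeasurableSet {w : Vec d | |w e - v e| < δ} := by
    have h3 : Continuous fun w : Vec d => |w e - v e| := by fun_prop
    have h4 : Measurable fun w : Vec d => |w e - v e| := h3.measurable
    exact h4 measurableSet_Iio
  have hgi : Integrable g := hg.rd.integrable hg.cont.aestronglyMeasurable
  have i2 : Integrable fun w => chi R₂ w * bet C₂ (g w) := by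
    refine hgi.mono' m2.aestronglyMeasurable (Eventually.of_forall fun w => ?_)
    rw [Real.norm_of_nonneg (p2 w)]
    exact l2 w
  have hlm : Measurable fun w : Vec d => len (v - w) ^ r :=
    (continuous_len.comp (continuous_const.sub continuous_id)).measurable.pow_const _
  have i1 : Integrable fun w => len (v - w) ^ r * (chi R w * bet C₀ (g w)) := by
    have h3 := freq_integrable hd (by linarith : -2 < r) h1 hg v
    refine h3.mono' (hlm.mul m1).aestronglyMeasurable (Eventually.of_forall fun w => ?_)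
    have h4 : 0 ≤ len (v - w) ^ r := Real.rpow_nonneg (len_nonneg _) _
    rw [Real.norm_of_nonneg (mul_nonneg h4 (p1 w)), mul_comm]
    exact mul_le_mul_of_nonneg_right (l1 w) h4
  have h5 := integral_add_compl hS i2
  have h6 : m / 4 ≤ ∫ w in {w : Vec d | |w e - v e| < δ}ᶜ, chi R₂ w * bet C₂ (g w) := by linarith
  rw [← hc, ← Real.mul_rpow hc0.le (jb_pos v).le]
  have hK : 0 ≤ (c * jb v) ^ r := Real.rpow_nonneg (mul_nonneg hc0.le (jb_pos v).le) _
  calc (c * jb v) ^ r * (m / 4)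
      ≤ (c * jb v) ^ r * ∫ w in {w : Vec d | |w e - v e| < δ}ᶜ, chi R₂ w * bet C₂ (g w) :=
        mul_le_mul_of_nonneg_left h6 hK
    _ = ∫ w in {w : Vec d | |w e - v e| < δ}ᶜ, (c * jb v) ^ r * (chi R₂ w * bet C₂ (g w)) :=
        (integral_const_mul _ _).symm
    _ ≤ ∫ w in {w : Vec d | |w e - v e| < δ}ᶜ, len (v - w) ^ r * (chi R w * bet C₀ (g w)) := by
        refine setIntegral_mono_on (i2.integrableOn.const_mul _) i1.integrableOn hS.compl
          fun w hw => ?_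
        have hw' : δ ≤ |w e - v e| := not_lt.1 hw
        rcases le_or_gt (jb w) (2 * R₂) with h7 | h7
        · have h8 := Sli_len hR₂ hδ h7 hw'
          rw [← hc] at h8
          have h9 : chi R₂ w * bet C₂ (g w) ≤ chi R w * bet C₀ (g w) :=
            mul_le_mul (Sli_chi (by linarith) hR w) (Sli_bet hC₂ hC (hg0 w))
              (bet_nonneg hC₂ (hg0 w)) (chi_nonneg _ _)
          exact mul_le_mul (Real.rpow_le_rpow (mul_nonneg hc0.le (jb_pos v).le) h8 h0) h9 (p2 w)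
            (Real.rpow_nonneg (len_nonneg _) _)
        · rw [z2 w h7, mul_zero]
          exact mul_nonneg (Real.rpow_nonneg (len_nonneg _) _) (p1 w)
    _ ≤ ∫ w, len (v - w) ^ r * (chi R w * bet C₀ (g w)) :=
        setIntegral_le_integral i1 (Eventually.of_forall fun w =>
          mul_nonneg (Real.rpow_nonneg (len_nonneg _) _) (p1 w))

/-- `|v-w|^r ≤ 4 ⟨v⟩^r ⟨w⟩^r`, `0 ≤ r ≤ 2` -/
private lemma Sli_up {r : ℝ} (h0 : 0 ≤ r) (h1 : r ≤ 2) (v w : Vec d) :
    len (v - w) ^ r ≤ 4 * jb v ^ r * jb w ^ r := by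
  have jv := one_le_jb v
  have jw := one_le_jb w
  have h2 : len (v - w) ≤ 2 * (jb v * jb w) := by
    have := len_sub_le v w
    have := len_le_jb v
    have := len_le_jb w
    nlinarith
  have h3 : (2 : ℝ) ^ r ≤ 4 := by
    calc (2 : ℝ) ^ r ≤ (2 : ℝ) ^ (2 : ℝ) := Real.rpow_le_rpow_of_exponent_le (by norm_num) h1
      _ = 4 := by norm_num
  calc len (v - w) ^ r ≤ (2 * (jb v * jb w)) ^ r := Real.rpow_le_rpow (len_nonneg _) h2 h0
    _ = (2 : ℝ) ^ r * (jb v ^ r * jb w ^ r) := by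
        rw [Real.mul_rpow (by norm_num) (by positivity), Real.mul_rpow (by linarith) (by linarith)]
    _ ≤ 4 * (jb v ^ r * jb w ^ r) := mul_le_mul_of_nonneg_right h3
        (mul_nonneg (Real.rpow_nonneg (by linarith) _) (Real.rpow_nonneg (by linarith) _))
    _ = _ := by ring

/-- upper bound of the gain from the unbounded part -/
private lemma Sli_gain {a : ℝ} (ha : -1 ≤ a) (ha1 : a < 1) {g : Vec d → ℝ} (hg : Nice g)
    (hg0 : ∀ u, 0 ≤ g u) {R C₀ ε : ℝ} (hR : 1 ≤ R) (hC : 0 < C₀) (e : Fin d) (v : Vec d)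
    (hs : ∫ w, (g w - chi R w * bet C₀ (g w)) * jb w ^ (1 + max a 0) ≤ ε) :
    ∫ w, (v e - w e) * PhS e a v w * (g w - chi R w * bet C₀ (g w)) ≤ 4 * jb v ^ (1 + a) * ε := by
  obtain ⟨m1, p1, l1, c1, z1⟩ := Sli_g1 hg hg0 hR hC
  have jv : 0 ≤ 4 * jb v ^ (1 + a) := mul_nonneg (by norm_num) (Real.rpow_nonneg (jb_pos v).le _)
  have hr0 : 0 ≤ 1 + max a 0 := by linarith [le_max_right a 0]
  have hjc : Continuous fun w : Vec d => jb w ^ (1 + max a 0) :=
    jb_cont.rpow_const fun w => Or.inl (jb_pos w).ne'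
  have hPG : PG fun v : Vec d => jb v ^ (1 + max a 0) := PG_jb
  have i0 : Integrable fun w => g w * jb w ^ (1 + max a 0) :=
    (hg.rd.mul_PG hPG).integrable (hg.cont.mul hjc).aestronglyMeasurable
  have i1 : Integrable fun w => (g w - chi R w * bet C₀ (g w)) * jb w ^ (1 + max a 0) := by
    refine i0.mono' ((hg.cont.measurable.sub m1).mul hjc.measurable).aestronglyMeasurable
      (Eventually.of_forall fun w => ?_)
    have h2 : 0 ≤ g w - chi R w * bet C₀ (g w) := by linarith [l1 w]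
    have h3 : g w - chi R w * bet C₀ (g w) ≤ g w := by linarith [p1 w]
    have h4 : 0 ≤ jb w ^ (1 + max a 0) := Real.rpow_nonneg (jb_pos w).le _
    rw [Real.norm_of_nonneg (mul_nonneg h2 h4)]
    exact mul_le_mul_of_nonneg_right h3 h4
  calc ∫ w, (v e - w e) * PhS e a v w * (g w - chi R w * bet C₀ (g w))
      ≤ ∫ w, 4 * jb v ^ (1 + a) * ((g w - chi R w * bet C₀ (g w)) * jb w ^ (1 + max a 0)) := by
        refine integral_mono_of_nonneg (Eventually.of_forall fun w => ?_) (i1.const_mul _)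
          (Eventually.of_forall fun w => ?_)
        · exact mul_nonneg (Pool.Agent.H82.DG.VPhS_nonneg e a v w) (by linarith [l1 w])
        · have h2 : 0 ≤ g w - chi R w * bet C₀ (g w) := by linarith [l1 w]
          have h3 := (Pool.Agent.H82.DG.VPhS_le_len e a v w).trans
            (Sli_up (by linarith : 0 ≤ 1 + a) (by linarith) v w)
          have h4 : jb w ^ (1 + a) ≤ jb w ^ (1 + max a 0) :=
            Real.rpow_le_rpow_of_exponent_le (one_le_jb w) (by linarith [le_max_left a 0])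
          have h5 := h3.trans (mul_le_mul_of_nonneg_left h4 jv)
          calc (v e - w e) * PhS e a v w * (g w - chi R w * bet C₀ (g w))
              ≤ 4 * jb v ^ (1 + a) * jb w ^ (1 + max a 0) * (g w - chi R w * bet C₀ (g w)) :=
                mul_le_mul_of_nonneg_right h5 h2
            _ = _ := by ring
    _ = 4 * jb v ^ (1 + a) * ∫ w, (g w - chi R w * bet C₀ (g w)) * jb w ^ (1 + max a 0) :=
        integral_const_mul _ _
    _ ≤ 4 * jb v ^ (1 + a) * ε := mul_le_mul_of_nonneg_left hs jv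

/-- the part of the mass in a thin slab -/
private lemma Sli_slab {R₂ C₂ m : ℝ} (hR₂ : 1 ≤ R₂) (hC₂ : 0 < C₂) (hm : 0 < m) (e : Fin d) :
    ∃ δ > 0, ∀ g : Vec d → ℝ, Nice g → (∀ u, 0 ≤ g u) → ∀ v : Vec d,
      ∫ w in {w : Vec d | |w e - v e| < δ}, chi R₂ w * bet C₂ (g w) ≤ m := by
  have hR0 : 0 < R₂ := by linarith
  set B : ℝ := C₂ * (2 * (4 * R₂) ^ (Finset.univ.erase e).card) with hB
  have hB0 : 0 < B := by positivity
  refine ⟨m / B, by positivity, fun g hg hg0 v => ?_⟩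
  obtain ⟨δ, hδ⟩ : ∃ δ : ℝ, δ = m / B := ⟨_, rfl⟩
  have hδ0 : 0 < δ := by rw [hδ]; positivity
  rw [← hδ]
  obtain ⟨m2, p2, l2, c2, z2⟩ := Sli_g1 hg hg0 hR₂ hC₂
  have hS : MeasurableSet {w : Vec d | |w e - v e| < δ} := by
    have h3 : Continuous fun w : Vec d => |w e - v e| := by fun_prop
    have h4 : Measurable fun w : Vec d => |w e - v e| := h3.measurable
    exact h4 measurableSet_Iio
  obtain ⟨Bx, hBx⟩ : ∃ Bx : Set (Vec d), Bx = Set.univ.pi fun i =>
    if i = e then Icc (v e - δ) (v e + δ) else Icc (-(2 * R₂)) (2 * R₂) := ⟨_, rfl⟩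
  have hBm : MeasurableSet Bx := by
    rw [hBx]
    refine MeasurableSet.univ_pi fun i => ?_
    split_ifs <;> exact measurableSet_Icc
  have hBv : volume Bx = ENNReal.ofReal (2 * δ) * ENNReal.ofReal (4 * R₂) ^
      (Finset.univ.erase e).card := by
    rw [hBx, volume_pi_pi, ← Finset.mul_prod_erase Finset.univ _ (Finset.mem_univ e), if_pos rfl,
      Real.volume_Icc]
    have e1 : ∀ i ∈ Finset.univ.erase e, volume (if i = e then Icc (v e - δ) (v e + δ) else
        Icc (-(2 * R₂)) (2 * R₂)) = ENNReal.ofReal (4 * R₂) := by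
      intro i hi
      rw [if_neg (Finset.ne_of_mem_erase hi), Real.volume_Icc]
      congr 1
      ring
    rw [Finset.prod_congr rfl e1, Finset.prod_const]
    congr 2
    ring
  have hBf : volume Bx ≠ ⊤ := by
    rw [hBv]
    exact ENNReal.mul_ne_top ENNReal.ofReal_ne_top (ENNReal.pow_ne_top ENNReal.ofReal_ne_top)
  have hBr : (volume : Measure (Vec d)).real Bx = 2 * δ * (4 * R₂) ^ (Finset.univ.erase e).card := by
    rw [Measure.real, hBv, ENNReal.toReal_mul, ENNReal.toReal_pow,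
      ENNReal.toReal_ofReal (by positivity), ENNReal.toReal_ofReal (by positivity)]
  have hiB : Integrable (Bx.indicator fun _ : Vec d => C₂) := by
    rw [integrable_indicator_iff hBm]
    exact integrableOn_const hBf
  have h1 : ∫ w in {w : Vec d | |w e - v e| < δ}, chi R₂ w * bet C₂ (g w) ≤
      ∫ w, Bx.indicator (fun _ : Vec d => C₂) w := by
    rw [← integral_indicator hS]
    refine integral_mono_of_nonneg (Eventually.of_forall fun w => ?_) hiB
      (Eventually.of_forall fun w => ?_)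
    · exact indicator_nonneg (fun w _ => p2 w) w
    · by_cases hw : w ∈ {w : Vec d | |w e - v e| < δ}
      · rw [indicator_of_mem hw]
        by_cases hj : 2 * R₂ < jb w
        · rw [z2 w hj]
          exact indicator_nonneg (fun _ _ => hC₂.le) w
        · have hwB : w ∈ Bx := by
            rw [hBx]
            intro i _
            have hc : |w i| ≤ 2 * R₂ := by
              have h5 : |w i| ≤ len w := by
                have := (norm_le_pi_norm w i).trans (norm_le_len w)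
                rwa [Real.norm_eq_abs] at this
              exact h5.trans ((len_le_jb w).trans (not_lt.1 hj))
            by_cases hi : i = e
            · subst hi
              simp only [if_true]
              have hw' : |w i - v i| < δ := hw
              have h6 := abs_lt.1 hw'
              exact ⟨by linarith [h6.1], by linarith [h6.2]⟩
            · simp only [hi, if_false]
              exact ⟨by linarith [(abs_le.1 hc).1], (abs_le.1 hc).2⟩
          rw [indicator_of_mem hwB]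
          exact c2 w
      · rw [indicator_of_notMem hw]
        exact indicator_nonneg (fun _ _ => hC₂.le) w
  refine h1.trans (le_of_eq ?_)
  rw [integral_indicator hBm, setIntegral_const, hBr, smul_eq_mul]
  calc 2 * δ * (4 * R₂) ^ (Finset.univ.erase e).card * C₂ = δ * B := by rw [hB]; ring
    _ = m := by rw [hδ]; field_simp

private lemma Sli_fin {K₀ κ I J j c m ε : ℝ} (h5 : K₀ * I ≤ K₀ * (4 * j * ε))
    (h6 : κ * (c * j * (m / 4)) ≤ κ * J) (h7 : K₀ * (4 * ε) * j ≤ κ * (c * (m / 4)) * j) :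
    K₀ * I - κ * J ≤ 0 := by
  have e1 : K₀ * (4 * j * ε) = K₀ * (4 * ε) * j := by ring
  have e2 : κ * (c * j * (m / 4)) = κ * (c * (m / 4)) * j := by ring
  linarith

end Aux

theorem sli (HL : HypL d (1 + a) s b C Ca cb) (ha : -1 ≤ a) (ha1 : a < 1) (hs1 : 2 * s < 1) {p : ℕ}
    (hp : (d : ℝ) + (1 + a) + 4 ≤ 2 * p) {m R₂ C₂ : ℝ} (hm : 0 < m) (hR₂ : 1 ≤ R₂) (hC₂ : 0 < C₂) :
    ∃ ε > 0, ∀ R C₀ : ℝ, R₂ ≤ R → C₂ ≤ C₀ → ∃ N₁ > 0, ∀ g : Vec d → ℝ, Nice g → (∀ u, 0 ≤ g u) →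
      m ≤ ∫ w, chi R₂ w * bet C₂ (g w) →
      ∫ w, (g w - chi R w * bet C₀ (g w)) * jb w ^ (1 + max a 0) ≤ ε →
      ∀ v : Vec d, N₁ ≤ g v * (1 + nsq v) ^ p →
      (∀ u, g u * (1 + nsq u) ^ p ≤ g v * (1 + nsq v) ^ p) → boltzQ (1 + a) b g v ≤ 0 := by
  have hd := HL.H.hd
  obtain ⟨e, -⟩ : ∃ e : Fin d, e = ⟨0, by omega⟩ := ⟨_, rfl⟩
  obtain ⟨K₀, κ, δ₁, hK₀, hκ, hδ₁, hδ₁1, hop⟩ := Pool.Agent.H82.DG.op_wn (β := 1) HL ha hs1 le_rfl hp e
  obtain ⟨δ, hδ, hslab⟩ := Sli_slab (d := d) hR₂ hC₂ (show (0 : ℝ) < m / 4 by positivity) e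
  have hR₂0 : 0 < R₂ := by linarith
  obtain ⟨c, hc⟩ : ∃ c : ℝ, c = min (1 / 2) (δ / (4 * R₂)) ^ (1 + a) := ⟨_, rfl⟩
  have hc0 : 0 < c := by
    rw [hc]
    exact Real.rpow_pos_of_pos (lt_min (by norm_num) (by positivity)) _
  obtain ⟨ε, hε, hεd⟩ : ∃ ε : ℝ, 0 < ε ∧ K₀ * (4 * ε) ≤ κ * (c * (m / 4)) := by
    refine ⟨κ * (c * (m / 4)) / (4 * K₀ + 1), by positivity, ?_⟩
    have h1 : K₀ * (4 * (κ * (c * (m / 4)) / (4 * K₀ + 1))) =
        (4 * K₀ / (4 * K₀ + 1)) * (κ * (c * (m / 4))) := by ring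
    have h2 : 4 * K₀ / (4 * K₀ + 1) ≤ 1 := (div_le_one (by linarith)).2 (by linarith)
    rw [h1]
    have h3 : 0 ≤ κ * (c * (m / 4)) := by positivity
    calc (4 * K₀ / (4 * K₀ + 1)) * (κ * (c * (m / 4))) ≤ 1 * (κ * (c * (m / 4))) :=
          mul_le_mul_of_nonneg_right h2 h3
      _ = _ := one_mul _
  refine ⟨ε, hε, fun R C₀ hR hC => ?_⟩
  have hR1 : 1 ≤ R := hR₂.trans hR
  have hC0 : 0 < C₀ := hC₂.trans_le hC
  obtain ⟨N₁, hN₁, hop⟩ := hop C₀ (2 * R) hC0 (by linarith)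
  refine ⟨N₁, hN₁, fun g hg hg0 hmass hrest v hhigh htch => ?_⟩
  obtain ⟨m1, p1, l1, c1, z1⟩ := Sli_g1 hg hg0 hR1 hC0
  have hT : Pool.Agent.H48.PW.TouchS δ₁ 1 p g v := by
    refine ⟨fun _ => 0, measurable_const, fun u => ?_, fun u => ?_, fun m _ k hk => ?_⟩
    · simpa using htch u
    · simpa using hδ₁.le
    · simp only [mul_zero, integral_zero]
      exact mul_nonneg hδ₁.le (integral_nonneg fun σ => mul_nonneg (hk.nonneg _) (mm_nonneg _ _ _))
  have h1 := hop g (fun u => chi R u * bet C₀ (g u)) hg hg0 m1 p1 l1 c1 z1 v hT hhigh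
  have h3 := Sli_gain ha ha1 hg hg0 hR1 hC0 e v hrest
  have h4 := Sli_low (by linarith : 0 ≤ 1 + a) (by linarith) hd hg hg0 hR₂ hC₂ hR hC hδ e v
    (by linarith : m / 2 ≤ ∫ w, chi R₂ w * bet C₂ (g w)) (hslab g hg hg0 v)
  rw [← hc] at h4
  refine h1.trans (mul_nonpos_of_nonneg_of_nonpos (hg0 v) ?_)
  have jv : 0 ≤ jb v ^ (1 + a) := Real.rpow_nonneg (jb_pos v).le _
  have h5 := mul_le_mul_of_nonneg_left h3 hK₀
  have h6 := mul_le_mul_of_nonneg_left h4 hκ.le
  have h7 := mul_le_mul_of_nonneg_right hεd jv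
  exact Sli_fin h5 h6 h7

end Pool.Agent.H37.GH
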